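import Pool.Agent.Helper503.Gp.Cay
import Pool.Agent.Helper503.Gp.Char1
import Pool.Agent.Helper503.Gp.Char2

set_option autoImplicit false

open Metric Set Filter Topology Complex
open scoped ComplexConjugate

namespace Pool.Agent.H302Z.GP

open Pool.Agent.Helper503.Gp

/-- inverse Cayley map -/
noncomputable def icay (z : ℂ) : ℂ := I * (1 + z) / (1 - z)

theorem one_sub_ne {z : ℂ} (hz : z ∈ ball (0:ℂ) 1) : (1 : ℂ) - z ≠ 0 := by
  rw [mem_ball_zero_iff] at hz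
  intro h
  have h' : z = 1 := by linear_combination -h
  rw [h'] at hz
  simp at hz

theorem icay_im {z : ℂ} (hz : z ∈ ball (0:ℂ) 1) : 0 < (icay z).im := by
  have hz1 := one_sub_ne hz
  rw [mem_ball_zero_iff] at hz
  have hz2 : Complex.normSq z < 1 := by
    rw [← Complex.sq_norm]
    have := norm_nonneg z
    nlinarith
  have hn : 0 < Complex.normSq (1 - z) := Complex.normSq_pos.2 hz1
  unfold icay
  rw [Complex.div_im]
  have h1 : (I * (1 + z)).im = 1 + z.re := by simp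
  have h2 : (I * (1 + z)).re = - z.im := by simp
  have h3 : (1 - z).re = 1 - z.re := by simp
  have h4 : (1 - z).im = - z.im := by simp
  rw [h1, h2, h3, h4, ← sub_div]
  apply div_pos _ hn
  rw [Complex.normSq_apply] at hz2
  nlinarith

theorem cay_icay {z : ℂ} (hz : z ∈ ball (0:ℂ) 1) : cay (icay z) = z := by
  have hz1 := one_sub_ne hz
  unfold cay icay
  have h1 : I * (1 + z) / (1 - z) - I = 2 * I * z / (1 - z) := by
    field_simp
    ring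
  have h2 : I * (1 + z) / (1 - z) + I = 2 * I / (1 - z) := by
    field_simp
    ring
  rw [h1, h2]
  have hI : (I : ℂ) ≠ 0 := Complex.I_ne_zero
  field_simp

theorem add_I_ne {w : ℂ} (hw : 0 < w.im) : w + I ≠ 0 := by
  intro h
  have := congrArg Complex.im h
  simp at this
  linarith

theorem icay_cay {w : ℂ} (hw : 0 < w.im) : icay (cay w) = w := by
  have h := add_I_ne hw
  unfold cay icay
  have h1 : 1 + (w - I) / (w + I) = 2 * w / (w + I) := by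
    field_simp
    ring
  have h2 : 1 - (w - I) / (w + I) = 2 * I / (w + I) := by
    field_simp
    ring
  rw [h1, h2]
  have hI : (I : ℂ) ≠ 0 := Complex.I_ne_zero
  field_simp

/-- upper half plane -/
def UH : Set ℂ := {w | 0 < w.im}

theorem isOpen_UH : IsOpen UH := isOpen_lt continuous_const Complex.continuous_im

theorem cay_diff : DifferentiableOn ℂ cay UH := by
  unfold cay
  exact DifferentiableOn.div (by fun_prop) (by fun_prop) fun w hw => add_I_ne hw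

theorem icay_diff : DifferentiableOn ℂ icay (ball (0:ℂ) 1) := by
  unfold icay
  exact DifferentiableOn.div (by fun_prop) (by fun_prop) fun w hw => one_sub_ne hw

theorem cay_I : cay I = 0 := by simp [cay]

/-- analytic on the half plane and bounded by `C` -/
def HU (C : ℝ) (F : ℂ → ℂ) : Prop := DifferentiableOn ℂ F UH ∧ ∀ w ∈ UH, ‖F w‖ ≤ C

theorem HU.mem {C : ℝ} {F : ℂ → ℂ} (h : HU C F) : (F ∘ icay) ∈ HI :=
  ⟨h.1.comp icay_diff fun _ hz => icay_im hz, C, fun _ hz => h.2 _ (icay_im hz)⟩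

theorem HU.le {C : ℝ} {F : ℂ → ℂ} (h : HU C F) : ∀ z ∈ ball (0:ℂ) 1, ‖(F ∘ icay) z‖ ≤ C :=
  fun _ hz => h.2 _ (icay_im hz)

theorem HU.nonneg {C : ℝ} {F : ℂ → ℂ} (h : HU C F) : 0 ≤ C :=
  (norm_nonneg _).trans (h.2 I (by simp [UH]))

theorem HU.mono {C D : ℝ} {F : ℂ → ℂ} (h : HU C F) (hCD : C ≤ D) : HU D F :=
  ⟨h.1, fun w hw => (h.2 w hw).trans hCD⟩

theorem hu_cay {C : ℝ} {f : ℂ → ℂ} (hf : DifferentiableOn ℂ f (ball (0:ℂ) 1))
    (hC : ∀ z ∈ ball (0:ℂ) 1, ‖f z‖ ≤ C) : HU C (f ∘ cay) :=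
  ⟨hf.comp cay_diff fun _ hw => cay_mem hw, fun _ hw => hC _ (cay_mem hw)⟩

theorem HU.mul {C D : ℝ} {F G : ℂ → ℂ} (h : HU C F) (h' : HU D G) : HU (C * D) (F * G) :=
  ⟨h.1.mul h'.1, fun w hw => by
    rw [Pi.mul_apply, norm_mul]
    exact mul_le_mul (h.2 w hw) (h'.2 w hw) (norm_nonneg _) h.nonneg⟩

theorem HU.add {C D : ℝ} {F G : ℂ → ℂ} (h : HU C F) (h' : HU D G) : HU (C + D) (F + G) :=
  ⟨h.1.add h'.1, fun w hw => (norm_add_le _ _).trans (add_le_add (h.2 w hw) (h'.2 w hw))⟩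

theorem HU.smul {C : ℝ} {F : ℂ → ℂ} (h : HU C F) (c : ℂ) : HU (‖c‖ * C) (c • F) :=
  ⟨h.1.const_smul c, fun w hw => by
    rw [Pi.smul_apply, norm_smul]
    exact mul_le_mul_of_nonneg_left (h.2 w hw) (norm_nonneg _)⟩

theorem hu_one : HU 1 (1 : ℂ → ℂ) := ⟨differentiableOn_const 1, fun _ _ => by simp⟩

/-- the character on half plane functions -/
noncomputable def hc (φ : (ℂ → ℂ) → ℂ) (F : ℂ → ℂ) : ℂ := φ (F ∘ icay)

section
variable {φ : (ℂ → ℂ) → ℂ} (hφ : IsChar φ)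
include hφ

theorem hc_mul {C D : ℝ} {F G : ℂ → ℂ} (h : HU C F) (h' : HU D G) :
    hc φ (F * G) = hc φ F * hc φ G := (hφ.2.1 _ h.mem _ h'.mem).2.1

theorem hc_add {C D : ℝ} {F G : ℂ → ℂ} (h : HU C F) (h' : HU D G) :
    hc φ (F + G) = hc φ F + hc φ G := (hφ.2.1 _ h.mem _ h'.mem).1

theorem hc_smul {C : ℝ} {F : ℂ → ℂ} (h : HU C F) (c : ℂ) :
    hc φ (c • F) = c * hc φ F := hφ.2.2.1 c _ h.mem

theorem hc_one : hc φ 1 = 1 := hφ.1

theorem hc_le {C : ℝ} {F : ℂ → ℂ} (h : HU C F) : ‖hc φ F‖ ≤ C := char_le hφ h.mem h.le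

theorem hc_cay {f : ℂ → ℂ} (hf : f ∈ HI) : hc φ (f ∘ cay) = φ f := by
  obtain ⟨C, hC⟩ := hf.2
  refine (hφ.2.1 _ (hu_cay hf.1 hC).mem _ hf).2.2 fun z hz => ?_
  change f (cay (icay z)) = f z
  rw [cay_icay hz]

end

/-- bound of the pseudohyperbolic distance -/
def RB (φ ψ : (ℂ → ℂ) → ℂ) (r : ℝ) : Prop :=
  ∀ g ∈ HI, (∀ z ∈ ball (0:ℂ) 1, ‖g z‖ ≤ 1) → φ g = 0 → ‖ψ g‖ ≤ r

theorem rb_small {φ ψ : (ℂ → ℂ) → ℂ} (hφ : IsChar φ) (hψ : IsChar ψ) {r : ℝ}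
    (hr : RB φ ψ r) {C : ℝ} {F : ℂ → ℂ} (h : HU C F) (hC : 0 < C) :
    ‖hc ψ F‖ ≤ r * (C + ‖hc φ F‖) + ‖hc φ F‖ := by
  set a := hc φ F with ha
  have hD : 0 < C + ‖a‖ := by positivity
  have h1 : HU (C + ‖-a‖ * 1) (F + (-a) • (1 : ℂ → ℂ)) := h.add (hu_one.smul (-a))
  have h2 := h1.smul (((C + ‖a‖)⁻¹ : ℝ) : ℂ)
  have e1 : ‖(((C + ‖a‖)⁻¹ : ℝ) : ℂ)‖ * (C + ‖-a‖ * 1) = 1 := by
    rw [Complex.norm_real, Real.norm_of_nonneg (by positivity), norm_neg, mul_one,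
      inv_mul_cancel₀ hD.ne']
  rw [e1] at h2
  have key : ∀ χ : (ℂ → ℂ) → ℂ, IsChar χ →
      hc χ ((((C + ‖a‖)⁻¹ : ℝ) : ℂ) • (F + (-a) • (1 : ℂ → ℂ))) =
        (((C + ‖a‖)⁻¹ : ℝ) : ℂ) * (hc χ F - a) := by
    intro χ hχ
    rw [hc_smul hχ h1, hc_add hχ h (hu_one.smul (-a)), hc_smul hχ hu_one, hc_one hχ]
    ring
  have h3 := hr _ h2.mem h2.le (by
    have := key φ hφ
    rw [← ha, sub_self, mul_zero] at this
    exact this)
  have h4 := key ψ hψ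
  unfold hc at h4
  rw [h4, norm_mul, Complex.norm_real, Real.norm_of_nonneg (by positivity),
    inv_mul_le_iff₀ hD] at h3
  have h5 : ‖hc ψ F‖ ≤ ‖hc ψ F - a‖ + ‖a‖ := by
    calc ‖hc ψ F‖ = ‖(hc ψ F - a) + a‖ := by rw [sub_add_cancel]
      _ ≤ _ := norm_add_le _ _
  unfold hc at h5 ⊢
  nlinarith

theorem rb_one {φ ψ : (ℂ → ℂ) → ℂ} (hφ : IsChar φ) (hψ : IsChar ψ) {r : ℝ} (hr0 : 0 ≤ r)
    (hr1 : r < 1) (hr : RB φ ψ r) {F : ℂ → ℂ} (h : HU 1 F) (hb : ‖hc φ F‖ < 1) :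
    (1 - r) * ‖hc ψ F - hc φ F‖ ≤ 2 * (1 - ‖hc φ F‖) := by
  obtain ⟨m, hm, hm1, hmm⟩ := x28452_mob hb h.mem h.le
  have e1 := hmm φ hφ
  have e2 := hmm ψ hψ
  change φ m * (1 - conj (hc φ F) * hc φ F) = hc φ F - hc φ F at e1
  change ψ m * (1 - conj (hc φ F) * hc ψ F) = hc ψ F - hc φ F at e2
  set b := hc φ F
  set y := hc ψ F
  rw [sub_self] at e1
  have hne := x28452_ne hb hb.le
  have e3 : φ m = 0 := (mul_eq_zero.1 e1).resolve_right hne
  have e4 := hr m hm hm1 e3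
  have e5 : 1 - conj b * y = ((1 - ‖b‖ ^ 2 : ℝ) : ℂ) - conj b * (y - b) := by
    have := Complex.conj_mul' b
    push_cast
    rw [← this]
    ring
  have e6 : ‖1 - conj b * y‖ ≤ (1 - ‖b‖ ^ 2) + ‖y - b‖ := by
    rw [e5]
    refine (norm_sub_le _ _).trans (add_le_add ?_ ?_)
    · rw [Complex.norm_real, Real.norm_of_nonneg]
      nlinarith [norm_nonneg b]
    · rw [norm_mul, RCLike.norm_conj]
      exact mul_le_of_le_one_left (norm_nonneg _) hb.le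
  have e7 : ‖y - b‖ ≤ r * ((1 - ‖b‖ ^ 2) + ‖y - b‖) := by
    calc ‖y - b‖ = ‖ψ m‖ * ‖1 - conj b * y‖ := by rw [← e2, norm_mul]
      _ ≤ _ := mul_le_mul e4 e6 (norm_nonneg _) hr0
  have h1 : 0 ≤ 1 - ‖b‖ := by linarith
  have h2 : r * (1 - ‖b‖ ^ 2) ≤ 2 * (1 - ‖b‖) := by
    have h3 : 1 - ‖b‖ ^ 2 = (1 - ‖b‖) * (1 + ‖b‖) := by ring
    have h4 : r * (1 + ‖b‖) ≤ 2 := by nlinarith [norm_nonneg b]
    rw [h3]
    nlinarith
  nlinarith

/-! ### Lipschitz estimate -/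

theorem ball_sub {e : ℂ} : ball e e.im ⊆ UH := by
  intro w hw
  rw [mem_ball, dist_eq_norm] at hw
  have h1 : |(w - e).im| ≤ ‖w - e‖ := Complex.abs_im_le_norm _
  rw [Complex.sub_im] at h1
  have := (abs_lt.1 (lt_of_le_of_lt h1 hw)).1
  change 0 < w.im
  linarith

theorem HU.lip {C : ℝ} {F : ℂ → ℂ} (h : HU C F) {e w : ℂ} (he : e ∈ UH) (hw : w ∈ ball e e.im) :
    ‖F w - F e‖ ≤ 2 * C / e.im * ‖w - e‖ := by
  have h1 := Complex.dist_le_div_mul_dist_of_mapsTo_ball (f := F) (c := e) (R₁ := e.im)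
    (R₂ := 2 * C) (h.1.mono ball_sub) (fun y hy => by
      rw [mem_closedBall, dist_eq_norm]
      have := h.2 y (ball_sub hy)
      have := h.2 e he
      exact (norm_sub_le _ _).trans (by linarith)) hw
  rwa [dist_eq_norm, dist_eq_norm] at h1

/-- limits along an ultrafilter of bounded analytic functions are analytic -/
theorem hu_lim {C : ℝ} {F : ℕ → ℂ → ℂ} (h : ∀ n, HU C (F n)) {G : ℂ → ℂ} (p : Ultrafilter ℕ)
    (hG : ∀ w ∈ UH, Tendsto (fun n => F n w) p (𝓝 (G w))) : HU C G := by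
  have hC := (h 0).nonneg
  refine ⟨?_, fun w hw => le_of_tendsto' (hG w hw).norm fun n => (h n).2 w hw⟩
  refine TendstoLocallyUniformlyOn.differentiableOn (φ := (p : Filter ℕ)) (F := F) ?_
    (Eventually.of_forall fun n => (h n).1) isOpen_UH
  rw [Metric.tendstoLocallyUniformlyOn_iff]
  intro ε hε e he
  have he' : 0 < e.im := he
  obtain ⟨δ, hδ0, hδ1, hδ2⟩ : ∃ δ : ℝ, 0 < δ ∧ δ ≤ e.im ∧ 2 * C / e.im * δ ≤ ε / 4 := by
    refine ⟨min e.im (ε / 4 / (2 * C / e.im + 1)), by positivity, min_le_left _ _, ?_⟩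
    have h1 : 0 ≤ 2 * C / e.im := by positivity
    calc 2 * C / e.im * min e.im (ε / 4 / (2 * C / e.im + 1))
        ≤ (2 * C / e.im + 1) * (ε / 4 / (2 * C / e.im + 1)) :=
          mul_le_mul (by linarith) (min_le_right _ _) (by positivity) (by positivity)
      _ = ε / 4 := by field_simp
  refine ⟨ball e δ, mem_nhdsWithin_of_mem_nhds (ball_mem_nhds e hδ0), ?_⟩
  have h0 := (Metric.tendsto_nhds.1 (hG e he)) (ε / 4) (by positivity)
  filter_upwards [h0] with n hn y hy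
  have hy' : y ∈ ball e e.im := ball_subset_ball hδ1 hy
  have hyd : ‖y - e‖ ≤ δ := by rw [mem_ball, dist_eq_norm] at hy; exact hy.le
  have h1 : ∀ k, ‖F k y - F k e‖ ≤ ε / 4 := fun k =>
    ((h k).lip he hy').trans ((mul_le_mul_of_nonneg_left hyd (by positivity)).trans hδ2)
  have h2 : ‖G y - G e‖ ≤ ε / 4 :=
    le_of_tendsto' ((hG y (ball_sub hy')).sub (hG e he)).norm h1
  rw [dist_eq_norm] at hn ⊢
  have h3 : G y - F n y = (G y - G e) - (F n e - G e) - (F n y - F n e) := by ring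
  rw [h3]
  have h4 := norm_sub_le ((G y - G e) - (F n e - G e)) (F n y - F n e)
  have h5 := norm_sub_le (G y - G e) (F n e - G e)
  have h6 := h1 n
  linarith

/-! ### The characters obtained by dilation -/

theorem div_mem {e : ℂ} (he : e ∈ UH) (n : ℕ) : e / 4 ^ n ∈ UH := by
  have h : e / 4 ^ n = e / ((4 ^ n : ℝ) : ℂ) := by push_cast; rfl
  change 0 < (e / 4 ^ n).im
  rw [h, Complex.div_ofReal_im]
  have : 0 < e.im := he
  positivity

theorem mul_mem {e : ℂ} (he : e ∈ UH) (n : ℕ) : 4 ^ n * e ∈ UH := by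
  have h : 4 ^ n * e = ((4 ^ n : ℝ) : ℂ) * e := by push_cast; rfl
  change 0 < (4 ^ n * e).im
  rw [h, Complex.im_ofReal_mul]
  have : 0 < e.im := he
  positivity

theorem HU.div {C : ℝ} {F : ℂ → ℂ} (h : HU C F) (n : ℕ) : HU C (fun w => F (w / 4 ^ n)) :=
  ⟨h.1.comp (by fun_prop) fun _ hw => div_mem hw n, fun _ hw => h.2 _ (div_mem hw n)⟩

theorem HU.mul4 {C : ℝ} {F : ℂ → ℂ} (h : HU C F) (n : ℕ) : HU C (fun w => F (4 ^ n * w)) :=
  ⟨h.1.comp (by fun_prop) fun _ hw => mul_mem hw n, fun _ hw => h.2 _ (mul_mem hw n)⟩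

theorem exists_lim (p : Ultrafilter ℕ) {a : ℕ → ℂ} {C : ℝ} (h : ∀ n, ‖a n‖ ≤ C) :
    ∃ x, Tendsto a p (𝓝 x) := by
  obtain ⟨x, -, hx⟩ := (isCompact_closedBall (0:ℂ) C).ultrafilter_le_nhds (p.map a) (by
    rw [Filter.le_principal_iff, Ultrafilter.coe_map, Filter.mem_map]
    exact Filter.univ_mem' fun n => mem_closedBall_zero_iff.2 (h n))
  exact ⟨x, hx⟩

open Classical in
/-- the limit along `p` of the evaluations at `e / 4 ^ n` -/
noncomputable def lam (p : Ultrafilter ℕ) (e : ℂ) (f : ℂ → ℂ) : ℂ :=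
  if f ∈ HI then limUnder (p : Filter ℕ) (fun n => f (cay (e / 4 ^ n))) else 0

theorem lam_spec (p : Ultrafilter ℕ) {e : ℂ} (he : e ∈ UH) {f : ℂ → ℂ} (hf : f ∈ HI) :
    Tendsto (fun n => f (cay (e / 4 ^ n))) p (𝓝 (lam p e f)) := by
  obtain ⟨C, hC⟩ := hf.2
  rw [lam, if_pos hf]
  exact tendsto_nhds_limUnder (exists_lim p fun n => hC _ (cay_mem (div_mem he n)))

theorem lam_eq (p : Ultrafilter ℕ) {e : ℂ} (he : e ∈ UH) {f : ℂ → ℂ} (hf : f ∈ HI) {a : ℂ}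
    (h : Tendsto (fun n => f (cay (e / 4 ^ n))) p (𝓝 a)) : lam p e f = a :=
  tendsto_nhds_unique (lam_spec p he hf) h

theorem lam_char (p : Ultrafilter ℕ) {e : ℂ} (he : e ∈ UH) : IsChar (lam p e) := by
  refine ⟨lam_eq p he char_le_one tendsto_const_nhds, fun f hf g hg => ⟨?_, ?_, fun h => ?_⟩,
    fun c f hf => ?_, fun f hf => ?_⟩
  · exact lam_eq p he (char_le_add hf hg) ((lam_spec p he hf).add (lam_spec p he hg))
  · exact lam_eq p he (char_le_mul hf hg) ((lam_spec p he hf).mul (lam_spec p he hg))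
  · refine lam_eq p he hf ((lam_spec p he hg).congr fun n => ?_)
    exact (h (cay_mem (div_mem he n))).symm
  · exact lam_eq p he (char_le_smul c hf) ((lam_spec p he hf).const_mul c)
  · rw [lam, if_neg hf]

theorem hc_lam (p : Ultrafilter ℕ) {e : ℂ} (he : e ∈ UH) {C : ℝ} {F : ℂ → ℂ} (h : HU C F) :
    Tendsto (fun n => F (e / 4 ^ n)) p (𝓝 (hc (lam p e) F)) := by
  refine (lam_spec p he h.mem).congr fun n => ?_
  change F (icay (cay (e / 4 ^ n))) = _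
  rw [icay_cay (div_mem he n)]

theorem lam_hu (p : Ultrafilter ℕ) {f : ℂ → ℂ} (hf : f ∈ HI) {C : ℝ}
    (hC : ∀ z ∈ ball (0:ℂ) 1, ‖f z‖ ≤ C) : HU C (fun e => lam p e f) :=
  hu_lim (F := fun n w => (f ∘ cay) (w / 4 ^ n)) (fun n => (hu_cay hf.1 hC).div n) p
    fun _ hw => lam_spec p hw hf

end Pool.Agent.H302Z.GP
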