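import Pool.Agent.Helper503.Gp.Defs
import Pool.Agent.Helper503.Gp.Lib
import Pool.Agent.Helper503.Gp.BF1
import Pool.Agent.Helper503.Gp.BF2
import Pool.Agent.Helper503.Gp.Cay
import Pool.Agent.Helper503.Gp.Harn

set_option autoImplicit false

open Metric Set Filter Topology Complex
open scoped ComplexConjugate

namespace Pool.Agent.H302Z.GP
open Pool.Agent.Helper503.Gp



theorem le_of_mul_one_sub_iso {x K : ℝ} (hx : 0 ≤ x)
    (h : ∀ δ : ℝ, 0 < δ → δ < 1 / 2 → x * (1 - δ) ≤ K) : x ≤ K := by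
  by_contra hc
  push Not at hc
  have hpos : 0 < x - K := by linarith
  have h1 := h (min (1 / 4) ((x - K) / (2 * (x + 1)))) (by positivity)
    (lt_of_le_of_lt (min_le_left _ _) (by norm_num))
  have h2 : min (1 / 4) ((x - K) / (2 * (x + 1))) ≤ (x - K) / (2 * (x + 1)) := min_le_right _ _
  have h3 : x * min (1 / 4) ((x - K) / (2 * (x + 1))) ≤ x * ((x - K) / (2 * (x + 1))) :=
    mul_le_mul_of_nonneg_left h2 hx
  have h4 : x * ((x - K) / (2 * (x + 1))) ≤ (x - K) / 2 := by
    rw [← mul_div_assoc, div_le_div_iff₀ (by positivity) (by norm_num)]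
    nlinarith
  nlinarith

theorem bfac_den_iso {a z : ℂ} (ha : ‖a‖ < 1) (hz : ‖z‖ ≤ 1) : 1 - conj a * z ≠ 0 := by
  intro h0
  have h1 : conj a * z = 1 := by linear_combination -h0
  have h2 : ‖conj a * z‖ = 1 := by rw [h1]; simp
  rw [norm_mul, RCLike.norm_conj] at h2
  nlinarith [norm_nonneg a, norm_nonneg z]

theorem bfac_cont_iso {a : ℂ} (ha : ‖a‖ < 1) : ContinuousOn (bfac a) (closedBall (0:ℂ) 1) := by
  by_cases h0 : a = 0
  · subst h0
    refine continuousOn_id.congr fun z _ => ?_
    simp [bfac]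
  · have : bfac a = fun z => ((‖a‖ : ℝ) : ℂ) / a * ((a - z) / (1 - conj a * z)) := by
      funext z; simp [bfac, h0]
    rw [this]
    refine continuousOn_const.mul (ContinuousOn.div (by fun_prop) (by fun_prop) fun z hz => ?_)
    exact bfac_den_iso ha (by simpa using hz)

theorem bfac_norm_iso {a z : ℂ} (ha : ‖a‖ < 1) (hz : ‖z‖ = 1) : ‖bfac a z‖ = 1 := by
  by_cases h0 : a = 0
  · subst h0; simp [bfac, hz]
  · have h1 : bfac a z = ((‖a‖ : ℝ) : ℂ) / a * ((a - z) / (1 - conj a * z)) := by
      simp [bfac, h0]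
    have hden := bfac_den_iso ha hz.le
    have hzz : conj z * z = 1 := by
      have := Complex.conj_mul' z
      rw [this, hz]; norm_num
    have h2 : conj z * (1 - conj a * z) = conj (z - a) := by
      rw [map_sub]; linear_combination (-conj a) * hzz
    have h3 : ‖1 - conj a * z‖ = ‖a - z‖ := by
      have h4 : ‖conj z * (1 - conj a * z)‖ = ‖conj (z - a)‖ := by rw [h2]
      rw [norm_mul, RCLike.norm_conj, RCLike.norm_conj, hz, one_mul] at h4
      rw [h4, norm_sub_rev]
    have hapos : ‖a‖ ≠ 0 := norm_ne_zero_iff.2 h0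
    rw [h1, norm_mul, norm_div, norm_div, h3]
    have h5 : ‖a - z‖ ≠ 0 := by rw [← h3]; exact norm_ne_zero_iff.2 hden
    rw [div_self h5, mul_one, Complex.norm_real, Real.norm_eq_abs, abs_norm, div_self hapos]

theorem factor_iso {a : ℂ} (ha : ‖a‖ < 1) {g : ℂ → ℂ}
    (hg : DifferentiableOn ℂ g (ball (0:ℂ) 1)) {K : ℝ}
    (hK : ∀ z ∈ ball (0:ℂ) 1, ‖g z * bfac a z‖ ≤ K) : ∀ z ∈ ball (0:ℂ) 1, ‖g z‖ ≤ K := by
  intro z hz
  refine le_of_mul_one_sub_iso (norm_nonneg _) fun δ hδ hδ2 => ?_
  have hz' : ‖z‖ < 1 := by simpa using hz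
  have hcont := bfac_cont_iso ha
  obtain ⟨r0, hr0, hr⟩ : ∃ r0 : ℝ, r0 < 1 ∧ ∀ y : ℂ, r0 < ‖y‖ → ‖y‖ ≤ 1 → 1 - δ ≤ ‖bfac a y‖ := by
    let S : Set ℂ := {y | y ∈ closedBall (0:ℂ) 1 ∧ ‖bfac a y‖ ≤ 1 - δ}
    have hS : IsCompact S := by
      have h1 : S = closedBall (0:ℂ) 1 ∩ (fun y => ‖bfac a y‖) ⁻¹' (Set.Iic (1 - δ)) := by
        ext y; simp [S]
      have h2 : IsClosed S := by
        rw [h1]
        exact (hcont.norm).preimage_isClosed_of_isClosed isClosed_closedBall isClosed_Iic
      exact (isCompact_closedBall (0:ℂ) 1).of_isClosed_subset h2 fun y hy => hy.1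
    rcases S.eq_empty_or_nonempty with he | hne
    · refine ⟨0, by norm_num, fun y _ hy1 => ?_⟩
      by_contra hc
      push Not at hc
      have : y ∈ S := ⟨by simpa using hy1, hc.le⟩
      rw [he] at this
      exact this
    · obtain ⟨y0, hy0, hmax⟩ := hS.exists_isMaxOn hne continuous_norm.continuousOn
      refine ⟨‖y0‖, ?_, fun y hy hy1 => ?_⟩
      · have h1 : ‖y0‖ ≤ 1 := by simpa using hy0.1
        refine lt_of_le_of_ne h1 fun h2 => ?_
        have h3 := bfac_norm_iso ha h2
        have h4 := hy0.2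
        rw [h3] at h4
        linarith
      · by_contra hc
        push Not at hc
        have h1 : y ∈ S := ⟨by simpa using hy1, hc.le⟩
        have h2 : ‖y‖ ≤ ‖y0‖ := hmax h1
        linarith
  obtain ⟨r, hr1, hr2⟩ := exists_between (max_lt hr0 hz')
  have hr1a : r0 < r := lt_of_le_of_lt (le_max_left _ _) hr1
  have hr1b : ‖z‖ < r := lt_of_le_of_lt (le_max_right _ _) hr1
  have hrpos : 0 < r := lt_of_le_of_lt (norm_nonneg z) hr1b
  have hδ1 : 0 < 1 - δ := by linarith
  have hmain : ‖g z‖ ≤ K / (1 - δ) := by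
    refine Complex.norm_le_of_forall_mem_frontier_norm_le (U := ball (0:ℂ) r) isBounded_ball
      ?_ ?_ (subset_closure (by simpa using hr1b))
    · refine DifferentiableOn.diffContOnCl ?_
      rw [closure_ball _ hrpos.ne']
      exact hg.mono (closedBall_subset_ball hr2)
    · intro y hy
      rw [frontier_ball _ hrpos.ne'] at hy
      have hy1 : ‖y‖ = r := by simpa using hy
      have hyb : y ∈ ball (0:ℂ) 1 := by simpa [hy1] using hr2
      have h1 := hK y hyb
      have h2 := hr y (by rw [hy1]; exact hr1a) (by rw [hy1]; exact hr2.le)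
      rw [norm_mul] at h1
      rw [le_div_iff₀ hδ1]
      exact le_trans (mul_le_mul_of_nonneg_left h2 (norm_nonneg _)) h1
  rwa [le_div_iff₀ hδ1] at hmain

theorem blaOn_mono {ι : Type} {w : ι → ℂ} {A B : Set ι} (h : BlaOn w A) (hB : B ⊆ A) :
    BlaOn w B := by
  refine ⟨fun i hi => h.1 i (hB hi), ?_⟩
  have h1 : Summable (A.indicator fun i => PH (w i) I) :=
    summable_subtype_iff_indicator.1 h.2
  have h2 : Summable (B.indicator fun i => PH (w i) I) := by
    have h3 := h1.indicator B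
    rw [Set.indicator_indicator, Set.inter_eq_left.2 hB] at h3
    exact h3
  exact summable_subtype_iff_indicator.2 h2

theorem bf_isometry {ι : Type} {w : ι → ℂ} {A : Set ι} (h : BlaOn w A) {f : ℂ → ℂ} (hf : f ∈ HI)
    {K : ℝ} (hK : ∀ z ∈ Metric.ball (0:ℂ) 1, ‖f z * BF w A z‖ ≤ K) :
    ∀ z ∈ Metric.ball (0:ℂ) 1, ‖f z‖ ≤ K := by
  classical
  have hstep : ∀ F : Finset ι, ∀ z ∈ ball (0:ℂ) 1, ‖f z * BF w (A \ (F : Set ι)) z‖ ≤ K := by
    intro F
    induction F using Finset.induction_on with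
    | empty => simpa using hK
    | insert i F hi ih =>
      by_cases hiA : i ∈ A
      · have hw : 0 < (w i).im := h.1 i hiA
        have hset : A \ (F : Set ι) = (A \ ((insert i F : Finset ι) : Set ι)) ∪ {i} := by
          ext j
          simp only [Finset.coe_insert, Set.mem_sdiff, Finset.mem_coe, Set.mem_union,
            Set.mem_insert_iff, Set.mem_singleton_iff]
          constructor
          · rintro ⟨h1, h2⟩
            by_cases hj : j = i
            · exact Or.inr hj
            · exact Or.inl ⟨h1, fun h3 => h3.elim hj h2⟩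
          · rintro (⟨h1, h2⟩ | rfl)
            · exact ⟨h1, fun h3 => h2 (Or.inr h3)⟩
            · exact ⟨hiA, hi⟩
        have hdis : Disjoint (A \ ((insert i F : Finset ι) : Set ι)) {i} := by
          rw [Set.disjoint_singleton_right]
          intro h1
          exact h1.2 (by simp)
        have hB1 : BlaOn w (A \ ((insert i F : Finset ι) : Set ι)) :=
          blaOn_mono h Set.sdiff_subset
        have hB2 : BlaOn w ({i} : Set ι) :=
          blaOn_mono h (Set.singleton_subset_iff.2 hiA)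
        have hcay : ‖cay (w i)‖ < 1 := by simpa using cay_mem hw
        have hg : DifferentiableOn ℂ
            (fun z => f z * BF w (A \ ((insert i F : Finset ι) : Set ι)) z) (ball (0:ℂ) 1) :=
          hf.1.mul (BF_mem hB1).1
        refine factor_iso hcay hg fun z hz => ?_
        have h1 := ih z hz
        rw [hset, BF_union hB1 hB2 hdis hz] at h1
        have h2 : BF w ({i} : Set ι) z = bfac (cay (w i)) z := by
          unfold BF
          rw [tprod_singleton i (fun i => bfac (cay (w i)) z)]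
        rw [h2, ← mul_assoc] at h1
        exact h1
      · have hset : A \ ((insert i F : Finset ι) : Set ι) = A \ (F : Set ι) := by
          ext j
          simp only [Finset.coe_insert, Set.mem_sdiff, Finset.mem_coe, Set.mem_insert_iff]
          constructor
          · rintro ⟨h1, h2⟩
            exact ⟨h1, fun h3 => h2 (Or.inr h3)⟩
          · rintro ⟨h1, h2⟩
            exact ⟨h1, fun h3 => h3.elim (fun h4 => hiA (h4 ▸ h1)) h2⟩
        rw [hset]
        exact ih
  have hK0 : 0 ≤ K := le_trans (norm_nonneg _) (hK 0 (by simp))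
  intro z hz
  obtain ⟨e, he, rfl⟩ := cay_surj hz
  refine le_of_mul_one_sub_iso (norm_nonneg _) fun δ hδ hδ2 => ?_
  have hs := summable_PH h he
  have hsi : Summable (A.indicator (fun i => PH (w i) e)) := summable_subtype_iff_indicator.1 hs
  have htail := tendsto_tsum_compl_atTop_zero (A.indicator (fun i => PH (w i) e))
  obtain ⟨F, hF⟩ := ((htail.eventually (gt_mem_nhds hδ))).exists
  have hmu : mu w (A \ (F : Set ι)) e < δ := by
    have h1 : (∑' a : {x // x ∉ F}, A.indicator (fun i => PH (w i) e) a)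
        = mu w (A \ (F : Set ι)) e := by
      have h2 : (∑' a : {x // x ∉ F}, A.indicator (fun i => PH (w i) e) a)
          = ∑' i, ((F : Set ι)ᶜ).indicator (A.indicator (fun i => PH (w i) e)) i :=
        tsum_subtype ((F : Set ι)ᶜ) (A.indicator (fun i => PH (w i) e))
      rw [h2, Set.indicator_indicator]
      unfold mu
      rw [tsum_subtype (A \ (F : Set ι)) (fun i => PH (w i) e)]
      have : (F : Set ι)ᶜ ∩ A = A \ (F : Set ι) := by
        rw [Set.inter_comm, Set.sdiff_eq]
      rw [this]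
    rw [← h1]
    exact hF
  have hB := blaOn_mono h (Set.sdiff_subset (s := A) (t := (F : Set ι)))
  have hs2 := summable_PH hB he
  have hhalf : ∀ i ∈ A \ (F : Set ι), PH (w i) e ≤ 1 / 2 := by
    intro i hi
    have h1 : PH (w (⟨i, hi⟩ : (A \ (F : Set ι) : Set ι))) e ≤ mu w (A \ (F : Set ι)) e :=
      hs2.le_tsum ⟨i, hi⟩ fun j _ => (PH_pos (hB.1 j j.2) he).le
    have h2 : PH (w i) e ≤ mu w (A \ (F : Set ι)) e := h1
    linarith
  have hlow := BF_lower hB he hhalf
  have hup := hstep F (cay e) (cay_mem he)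
  rw [norm_mul] at hup
  have hexp : (1 - δ) ^ 2 ≤ ‖BF w (A \ (F : Set ι)) (cay e)‖ ^ 2 := by
    refine le_trans ?_ hlow
    have h1 : 1 - δ ≤ Real.exp (-δ) := by
      have := Real.add_one_le_exp (-δ); linarith
    have h2 : Real.exp (-δ) ^ 2 = Real.exp (-2 * δ) := by
      rw [← Real.exp_nat_mul]; congr 1; push_cast; ring
    have h3 : Real.exp (-2 * δ) ≤ Real.exp (-2 * mu w (A \ (F : Set ι)) e) :=
      Real.exp_le_exp.2 (by linarith)
    calc (1 - δ) ^ 2 ≤ Real.exp (-δ) ^ 2 := pow_le_pow_left₀ (by linarith) h1 2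
      _ = Real.exp (-2 * δ) := h2
      _ ≤ _ := h3
  have hB1 : 1 - δ ≤ ‖BF w (A \ (F : Set ι)) (cay e)‖ :=
    (pow_le_pow_iff_left₀ (by linarith) (norm_nonneg _) two_ne_zero).1 hexp
  exact le_trans (mul_le_mul_of_nonneg_left hB1 (norm_nonneg _)) hup

end Pool.Agent.H302Z.GP
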