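import Pool.Agent.H302Z.GP.Ultra
import Pool.Agent.H302Z.GP.Iso
import Pool.Agent.Helper503.Gp.PropK
import Pool.Agent.Helper503.Gp.Norming
import Pool.Agent.Helper503.Gp.Root

set_option autoImplicit false

open Metric Set Filter Topology Complex
open scoped ComplexConjugate

namespace Pool.Agent.H302Z.GP

open Pool.Agent.Helper503.Gp

/-- a nontrivial point kills a Blaschke product whose zeros satisfy the Carleson condition -/
theorem carleson {φ : (ℂ → ℂ) → ℂ} (hφ : IsChar φ)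
    (hfib : ∀ (ι : Type) (w : ι → ℂ), BlaOn w Set.univ →
      ∃ R : ℝ, φ (BF w (Set.univ ∩ {i | R ≤ ‖w i‖})) ≠ 0)
    (hnt : ∃ ψ, IsChar ψ ∧ Gl φ ψ ∧ ψ ≠ φ) :
    ∃ (ι : Type) (w : ι → ℂ) (A : Set ι) (C : ℝ), BlaOn w A ∧ φ (BF w A) = 0 ∧
      ∀ e : ℂ, 0 < e.im → mu w A e ≤ C := by
  classical
  obtain ⟨ψ, hψ, hgl, hψne⟩ := hnt
  obtain ⟨C2, hC2, ε0, hε0, hε1, hthick⟩ := thick_ne
  obtain ⟨ι, w, hB, hB0, hnear⟩ := near_ext hφ hψ hgl hψne ε0 hε0
  obtain ⟨R, hR⟩ := hfib ι w hB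
  set A1 : Set ι := Set.univ ∩ {i | ‖w i‖ < R} with hA1
  have hA10 : φ (BF w A1) = 0 := by
    have e : (Set.univ : Set ι) = A1 ∪ (Set.univ ∩ {i | R ≤ ‖w i‖}) := by
      ext i
      simp only [hA1, Set.mem_univ, Set.mem_union, Set.mem_inter_iff, true_and, true_iff]
      exact lt_or_ge ‖w i‖ R
    have hd : Disjoint A1 (Set.univ ∩ {i | R ≤ ‖w i‖}) := by
      rw [Set.disjoint_left]
      rintro i ⟨_, h1⟩ ⟨_, h2⟩
      exact absurd (show ‖w i‖ < R from h1) (not_lt.mpr h2)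
    have h1 := hB0
    rw [e, propK_mul hφ hB hd] at h1
    exact (mul_eq_zero.mp h1).resolve_right hR
  have hfin1 : ∀ t : ℝ, 0 < t → {i | i ∈ A1 ∧ t ≤ (w i).im}.Finite := by
    intro t ht
    exact bounded_fin w Set.univ hB R t ht
  obtain ⟨κ, hκ⟩ := split w A1 (fun i _ => hB.1 i (Set.mem_univ i)) hfin1
    (fun e he => summable_PH (propK_sub hB A1) he) 2 (by norm_num)
  have hcmp : ∀ c c' : Fin 2, ∀ e : ℂ, 0 < e.im →
      mu w (A1 ∩ κ ⁻¹' {c}) e ≤ 8 * mu w (A1 ∩ κ ⁻¹' {c'}) e + 1000 := by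
    intro c c' e he
    have h1 := hκ e he 1 one_pos le_rfl (fun i _ => PH_le_one (hB.1 i (Set.mem_univ i)) he) c c'
    rw [Real.sqrt_one, mul_one] at h1
    exact h1
  obtain ⟨c, hc⟩ := propK_fin hφ hB A1 κ hA10
  obtain ⟨c', hcc⟩ : ∃ c' : Fin 2, c' ≠ c := exists_ne c
  set D : Set ι := A1 ∩ κ ⁻¹' {c} with hD
  set D' : Set ι := A1 ∩ κ ⁻¹' {c'} with hD'
  have hDD : Disjoint D D' := by
    rw [Set.disjoint_left]
    rintro i ⟨_, h1⟩ ⟨_, h2⟩
    rw [Set.mem_preimage, Set.mem_singleton_iff] at h1 h2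
    exact hcc (h2.symm.trans h1)
  have hD'1 : 1 - ε0 ≤ ‖φ (BF w D')‖ := by
    refine (hnear D hc).trans ?_
    have e : Dᶜ = D' ∪ (Dᶜ \ D') := by
      rw [Set.union_sdiff_cancel]
      intro i hi hi'
      exact Set.disjoint_left.mp hDD hi' hi
    rw [e, propK_mul hφ hB Set.disjoint_sdiff_right, norm_mul]
    have h1 : ‖φ (BF w (Dᶜ \ D'))‖ ≤ 1 :=
      char_le hφ (BF_mem (propK_sub hB _)) (BF_le (propK_sub hB _))
    exact mul_le_of_le_one_right (norm_nonneg _) h1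
  have hth := hthick φ hφ ι w D D' (propK_sub hB _) hDD (fun e he => hcmp c c' e he) hD'1
  set A2 : Set ι := D ∩ {i | mu w (D ∪ D') (w i) ≤ C2} with hA2
  have hA20 : φ (BF w A2) = 0 := by
    have e : D = A2 ∪ (D ∩ {i | C2 < mu w (D ∪ D') (w i)}) := by
      rw [hA2, ← Set.inter_union_distrib_left]
      symm
      rw [Set.inter_eq_left]
      intro i _
      exact le_or_gt (mu w (D ∪ D') (w i)) C2
    have hd : Disjoint A2 (D ∩ {i | C2 < mu w (D ∪ D') (w i)}) := by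
      rw [Set.disjoint_left]
      rintro i ⟨_, h1⟩ ⟨_, h2⟩
      exact absurd (show C2 < mu w (D ∪ D') (w i) from h2) (not_lt.mpr h1)
    have h1 := hc
    rw [e, propK_mul hφ hB hd] at h1
    exact (mul_eq_zero.mp h1).resolve_right hth
  have hA2D : A2 ⊆ D := Set.inter_subset_left
  have hmu : ∀ i ∈ A2, mu w A2 (w i) ≤ C2 := by
    intro i hi
    exact (propK_mono hB (hA2D.trans Set.subset_union_left) (hB.1 i (Set.mem_univ i))).trans hi.2
  exact ⟨ι, w, A2, 100 * max C2 0, propK_sub hB A2, hA20, fun e he =>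
    thin_small_bound (propK_sub hB A2) hmu he⟩

theorem exp_low {x κ : ℝ} (hκ : 0 < κ) (hx : 0 ≤ x) (hx2 : x ≤ 1 - κ) :
    Real.exp (-κ⁻¹ * x) ≤ 1 - x := by
  have h1 : 1 + κ⁻¹ * x ≤ Real.exp (κ⁻¹ * x) := by
    have := Real.add_one_le_exp (κ⁻¹ * x)
    linarith
  have h2 : Real.exp (-κ⁻¹ * x) = (Real.exp (κ⁻¹ * x))⁻¹ := by
    rw [← Real.exp_neg]
    congr 1
    ring
  have h0 : 0 ≤ κ⁻¹ * x := by positivity
  rw [h2, inv_le_comm₀ (Real.exp_pos _) (by linarith)]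
  refine le_trans ?_ h1
  rw [inv_le_comm₀ (by linarith) (by linarith), inv_le_iff_one_le_mul₀ (by linarith)]
  have h3 : κ * (κ⁻¹ * x) = x := by rw [← mul_assoc, mul_inv_cancel₀ hκ.ne', one_mul]
  have h4 : κ * (κ⁻¹ * x) ≤ (1 - x) * (κ⁻¹ * x) := mul_le_mul_of_nonneg_right (by linarith) h0
  nlinarith

theorem bf_low {ι : Type} {w : ι → ℂ} {A : Set ι} (h : BlaOn w A) {e : ℂ} (he : 0 < e.im)
    {κ : ℝ} (hκ : 0 < κ) (hh : ∀ i ∈ A, PH (w i) e ≤ 1 - κ) :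
    Real.exp (-κ⁻¹ * mu w A e) ≤ ‖BF w A (cay e)‖ := by
  have h1 := BF_tend h he
  have h2 := BF_tend' h he (-κ⁻¹)
  have h3 : Real.exp (-κ⁻¹ * mu w A e) ≤ ‖BF w A (cay e)‖ ^ 2 := by
    refine le_of_tendsto_of_tendsto' h2 h1 (fun s => ?_)
    refine Finset.prod_le_prod (fun i _ => (Real.exp_pos _).le) (fun i _ => ?_)
    exact exp_low hκ (PH_pos (h.1 i i.2) he).le (hh i i.2)
  have h4 := BF_le h _ (cay_mem he)
  nlinarith [norm_nonneg (BF w A (cay e))]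

theorem near_est {a b y κ d : ℝ} (hb : 0 < b) (hy : 0 < y) (hd : 0 < d) (hd1 : d ≤ 1 / 16)
    (hκ : κ = d ^ 2 / 9) (h : 1 - κ < 4 * b * y / (a ^ 2 + (b + y) ^ 2)) :
    |a| < d * y ∧ ∀ a' : ℝ, |a'| ≤ y / 4 → 1 / 2 ≤ 4 * b * y / (a' ^ 2 + (b + y) ^ 2) := by
  have hκ0 : 0 < κ := by rw [hκ]; positivity
  have hκ1 : κ ≤ 1 / 9 := by rw [hκ]; nlinarith
  rw [lt_div_iff₀ (by positivity)] at h
  have hby : 0 < b * y := mul_pos hb hy
  have h1 : 8 / 9 * (b + y) ^ 2 < 4 * b * y := by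
    have : 8 / 9 * (a ^ 2 + (b + y) ^ 2) ≤ (1 - κ) * (a ^ 2 + (b + y) ^ 2) :=
      mul_le_mul_of_nonneg_right (by linarith) (by positivity)
    nlinarith [sq_nonneg a]
  have h2 : b < 2 * y := by
    by_contra hc
    rw [not_lt] at hc
    nlinarith [mul_nonneg (sub_nonneg.2 hc) (show 0 ≤ 2 * b - y by linarith)]
  have h3 : y < 2 * b := by
    by_contra hc
    rw [not_lt] at hc
    nlinarith [mul_nonneg (sub_nonneg.2 hc) (show 0 ≤ 2 * y - b by linarith)]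
  constructor
  · have h4 : (1 - κ) * (a ^ 2 + 4 * b * y) ≤ (1 - κ) * (a ^ 2 + (b + y) ^ 2) :=
      mul_le_mul_of_nonneg_left (by nlinarith [sq_nonneg (b - y)]) (by linarith)
    have h5 : 8 / 9 * a ^ 2 ≤ (1 - κ) * a ^ 2 :=
      mul_le_mul_of_nonneg_right (by linarith) (sq_nonneg a)
    have h6 : κ * (b * y) ≤ κ * (2 * y * y) :=
      mul_le_mul_of_nonneg_left (mul_le_mul_of_nonneg_right h2.le hy.le) hκ0.le
    have h7 : a ^ 2 < (d * y) ^ 2 := by
      have : (d * y) ^ 2 = 9 * κ * (y * y) := by rw [hκ]; ring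
      rw [this]
      nlinarith
    exact abs_lt_of_sq_lt_sq h7 (by positivity)
  · intro a' ha'
    rw [le_div_iff₀ (by positivity)]
    have h4 : a' ^ 2 ≤ (y / 4) ^ 2 := by
      rw [← sq_abs a']
      exact pow_le_pow_left₀ (abs_nonneg _) ha' 2
    nlinarith

/-- near every point there is a point where the product is bounded below -/
theorem free_point (C : ℝ) : ∃ J : ℕ, ∃ c : ℝ, 0 < c ∧ ∃ t : ℕ → ℝ, (∀ j < J, |t j| ≤ 1 / 8) ∧
    ∀ (ι : Type) (w : ι → ℂ) (A : Set ι), BlaOn w A → (∀ e : ℂ, 0 < e.im → mu w A e ≤ C) →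
      ∀ e : ℂ, 0 < e.im → ∃ j < J, c ≤ ‖BF w A (cay (e + ((t j * e.im : ℝ) : ℂ)))‖ := by
  classical
  obtain ⟨J, hJ⟩ := exists_nat_gt (2 * max C 0)
  have hJ0 : (0:ℝ) < J := lt_of_le_of_lt (by positivity) hJ
  have hJ1 : (1:ℝ) ≤ J := by
    have : 0 < J := by exact_mod_cast hJ0
    exact_mod_cast this
  set d : ℝ := 1 / (16 * J) with hd
  have hd0 : 0 < d := by positivity
  have hd1 : d ≤ 1 / 16 := by
    rw [hd]
    exact div_le_div_of_nonneg_left zero_le_one (by norm_num) (by linarith)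
  have hdJ : d * J = 1 / 16 := by rw [hd]; field_simp
  set κ : ℝ := d ^ 2 / 9 with hκ
  have hκ0 : 0 < κ := by positivity
  have ht : ∀ j < J, |2 * d * (j : ℝ)| ≤ 1 / 8 := by
    intro j hj
    have : (j : ℝ) ≤ J := by exact_mod_cast hj.le
    rw [abs_of_nonneg (by positivity)]
    nlinarith
  refine ⟨J, Real.exp (-κ⁻¹ * C), Real.exp_pos _, fun j => 2 * d * j, ht,
    fun ι w A hA hC e he => ?_⟩
  have him : ∀ s : ℝ, (e + (s : ℂ)).im = e.im := fun s => by simp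
  have hre : ∀ s : ℝ, (e + (s : ℂ)).re = e.re + s := fun s => by simp
  by_contra hcon
  push Not at hcon
  have h1 : ∀ j : Fin J, ∃ i : A, 1 - κ < PH (w i) (e + ((2 * d * j * e.im : ℝ) : ℂ)) := by
    intro j
    by_contra h2
    push Not at h2
    have he' : 0 < (e + ((2 * d * j * e.im : ℝ) : ℂ)).im := by rw [him]; exact he
    have h3 := bf_low hA he' hκ0 fun i hi => h2 ⟨i, hi⟩
    have h4 := hcon j j.2
    have h5 : Real.exp (-κ⁻¹ * C) ≤
        Real.exp (-κ⁻¹ * mu w A (e + ((2 * d * j * e.im : ℝ) : ℂ))) := by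
      refine Real.exp_le_exp.2 ?_
      have h6 := hC _ he'
      have h7 : 0 < κ⁻¹ := by positivity
      nlinarith
    linarith
  choose f hf using h1
  have h2 : ∀ j : Fin J, |(w (f j)).re - (e.re + 2 * d * j * e.im)| < d * e.im ∧
      1 / 2 ≤ PH (w (f j)) e := by
    intro j
    have h3 := hf j
    unfold PH at h3
    rw [him, hre] at h3
    obtain ⟨h4, h5⟩ := near_est (hA.1 _ (f j).2) he hd0 hd1 hκ h3
    refine ⟨h4, h5 _ ?_⟩
    have h6 := ht j j.2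
    have h7 : |2 * d * (j : ℝ) * e.im| ≤ 1 / 8 * e.im := by
      rw [abs_mul, abs_of_pos he]
      exact mul_le_mul_of_nonneg_right h6 he.le
    have h8 : d * e.im ≤ 1 / 16 * e.im := mul_le_mul_of_nonneg_right hd1 he.le
    have h9 : (w (f j)).re - e.re =
        ((w (f j)).re - (e.re + 2 * d * j * e.im)) + 2 * d * j * e.im := by ring
    rw [h9]
    refine (abs_add_le _ _).trans ?_
    linarith
  have hinj : Function.Injective f := by
    intro j k hjk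
    have h3 := (h2 j).1
    have h4 := (h2 k).1
    rw [hjk] at h3
    have hde : 0 < d * e.im := mul_pos hd0 he
    have h5 := abs_lt.1 h3
    have h6 := abs_lt.1 h4
    have h7 : ((j : ℕ) : ℝ) - (k : ℕ) < 1 := by
      by_contra hc
      rw [not_lt] at hc
      nlinarith
    have h8 : ((k : ℕ) : ℝ) - (j : ℕ) < 1 := by
      by_contra hc
      rw [not_lt] at hc
      nlinarith
    have h9 : ((j : ℕ) : ℝ) < ((k + 1 : ℕ) : ℝ) := by push_cast; linarith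
    have h10 : ((k : ℕ) : ℝ) < ((j + 1 : ℕ) : ℝ) := by push_cast; linarith
    have h11 : (j : ℕ) < k + 1 := by exact_mod_cast h9
    have h12 : (k : ℕ) < j + 1 := by exact_mod_cast h10
    exact Fin.ext (by omega)
  have h3 : ∑ i ∈ Finset.univ.map ⟨f, hinj⟩, PH (w i) e ≤ mu w A e :=
    (summable_PH hA he).sum_le_tsum _ fun l _ => (PH_pos (hA.1 _ l.2) he).le
  rw [Finset.sum_map] at h3
  have h4 : ∑ _j : Fin J, (1 / 2 : ℝ) ≤ ∑ j : Fin J, PH (w (f j)) e :=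
    Finset.sum_le_sum fun j _ => (h2 j).2
  rw [Finset.sum_const, Finset.card_univ, Fintype.card_fin, nsmul_eq_mul] at h4
  have h5 := hC e he
  have h6 := le_max_left C 0
  have h7 : ∑ j : Fin J, PH (w (f j)) e ≤ mu w A e := h3
  linarith

theorem fiber {q : Ultrafilter ℕ} (hq : (q : Filter ℕ) ≤ atTop) {φ : (ℂ → ℂ) → ℂ}
    (h : Incl φ (Disc q)) (ι : Type) (w : ι → ℂ) (hB : BlaOn w Set.univ) :
    ∃ R : ℝ, φ (BF w (Set.univ ∩ {i | R ≤ ‖w i‖})) ≠ 0 := by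
  obtain ⟨R, hR⟩ := far_tail w Set.univ hB (1 / 2) (by norm_num)
  refine ⟨R, fun h0 => ?_⟩
  set A : Set ι := Set.univ ∩ {i | R ≤ ‖w i‖}
  have hA : BlaOn w A := propK_sub hB A
  obtain ⟨ψ, ⟨e, he, rfl⟩, h1⟩ := h {BF w A} (Real.exp (-(1 / 2 : ℝ)⁻¹ * (1 / 2))) (Real.exp_pos _)
  have h2 := h1 _ (Finset.mem_singleton_self _)
  rw [h0, sub_zero] at h2
  refine absurd h2 (not_lt.2 (ge_of_tendsto (lam_spec q he (BF_mem hA)).norm ?_))
  have h3 : Tendsto (fun n : ℕ => ‖e‖ * (1 / 4 : ℝ) ^ n) atTop (𝓝 (‖e‖ * 0)) :=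
    (tendsto_pow_atTop_nhds_zero_of_lt_one (by norm_num) (by norm_num)).const_mul _
  rw [mul_zero] at h3
  filter_upwards [hq (h3.eventually (ge_mem_nhds one_pos))] with n hn
  have h4 : ‖e / 4 ^ n‖ ≤ 1 := by
    have h5 : ‖e‖ * (1 / 4 : ℝ) ^ n ≤ 1 := hn
    rw [norm_div, norm_pow]
    rw [one_div_pow, mul_one_div] at h5
    simpa using h5
  have he' : 0 < (e / 4 ^ n).im := div_mem he n
  have h5 := hR _ he' (((le_abs_self _).trans (Complex.abs_im_le_norm _)).trans h4) (by linarith)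
  refine le_trans (Real.exp_le_exp.2 ?_) (bf_low hA he' (κ := 1 / 2) (by norm_num) fun i hi => ?_)
  · norm_num
    linarith
  · have h6 : PH (w (⟨i, hi⟩ : A)) (e / 4 ^ n) ≤ mu w A (e / 4 ^ n) :=
      (summable_PH hA he').le_tsum ⟨i, hi⟩ fun j _ => (PH_pos (hA.1 j j.2) he').le
    have h7 : PH (w i) (e / 4 ^ n) ≤ mu w A (e / 4 ^ n) := h6
    linarith

/-- a nontrivial point of the closure of the disc of `q` is outside some closed boundary -/
theorem off_boundary {q : Ultrafilter ℕ} (hq : (q : Filter ℕ) ≤ atTop) {φ : (ℂ → ℂ) → ℂ}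
    (hφ : IsChar φ) (h : Incl φ (Disc q)) (hnt : ∃ ψ, IsChar ψ ∧ Gl φ ψ ∧ ψ ≠ φ) :
    ∃ B ∈ HI, φ B = 0 ∧ ∃ c : ℝ, 0 < c ∧ ∀ f ∈ HI, ∀ e ∈ UH, ∀ ε : ℝ, 0 < ε →
      ∃ e' ∈ UH, c ≤ ‖lam q e' B‖ ∧ ‖lam q e f‖ < ‖lam q e' f‖ + ε := by
  obtain ⟨ι, w, A, C, hA, h0, hC⟩ := carleson hφ (fiber hq h) hnt
  obtain ⟨J, c, hc, t, ht, hfree⟩ := free_point C
  have hB := BF_mem hA
  have hG : HU 1 (fun e => lam q e (BF w A)) := lam_hu q hB (BF_le hA)
  set G : ℂ → ℂ := fun e => lam q e (BF w A) with hGdef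
  have hmem : ∀ e ∈ UH, ∀ s : ℝ, e + (s : ℂ) ∈ UH := by
    intro e he s
    change 0 < (e + (s : ℂ)).im
    simpa [UH] using he
  have hlow : ∀ e ∈ UH, ∃ j < J, c ≤ ‖G (e + ((t j * e.im : ℝ) : ℂ))‖ := by
    intro e he
    have h1 : ∀ᶠ n in (q : Filter ℕ), ∃ j ∈ Set.Iio J,
        c ≤ ‖BF w A (cay ((e + ((t j * e.im : ℝ) : ℂ)) / 4 ^ n))‖ := by
      refine Eventually.of_forall fun n => ?_
      obtain ⟨j, hj, h2⟩ := hfree ι w A hA hC (e / 4 ^ n) (div_mem he n)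
      refine ⟨j, hj, ?_⟩
      have e1 : e / 4 ^ n = e / ((4 ^ n : ℝ) : ℂ) := by push_cast; rfl
      have e2 : (e / 4 ^ n).im = e.im / 4 ^ n := by rw [e1, Complex.div_ofReal_im]
      have e3 : (e + ((t j * e.im : ℝ) : ℂ)) / 4 ^ n =
          e / 4 ^ n + ((t j * (e / 4 ^ n).im : ℝ) : ℂ) := by
        rw [e2]; push_cast; ring
      rw [e3]
      exact h2
    obtain ⟨j, hj, h2⟩ := (Ultrafilter.eventually_exists_mem_iff (Set.finite_Iio J)).1 h1
    exact ⟨j, hj, ge_of_tendsto (lam_spec q (hmem e he _) hB).norm h2⟩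
  obtain ⟨ι', w', g, hw', hg, hg1, hg0, hfac⟩ := factor_HI hG.mem hG.le (by
    obtain ⟨j, -, h1⟩ := hlow I I_mem
    refine ⟨_, cay_mem (hmem I I_mem (t j * I.im)), ?_⟩
    change G (icay (cay _)) ≠ 0
    rw [icay_cay (hmem I I_mem (t j * I.im)), ← norm_pos_iff]
    linarith)
  obtain ⟨N, hN⟩ := exists_pow_lt_of_lt_one hc (show (3 / 4 : ℝ) < 1 by norm_num)
  obtain ⟨u, hu, hu1, hug⟩ := exists_root hg hg1 hg0 (N + 1) (Nat.succ_pos N)
  have hU : HU 1 (u ∘ cay) := hu_cay hu.1 hu1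
  have hglow : ∀ z ∈ ball (0:ℂ) 1, (1 / 2 : ℝ) ^ (N + 1) ≤ ‖g z‖ := by
    intro z hz
    have he : icay z ∈ UH := icay_im hz
    have he0 : 0 < (icay z).im := he
    obtain ⟨j, hj, h1⟩ := hlow _ he
    set e' := icay z + ((t j * (icay z).im : ℝ) : ℂ) with he'def
    have he' : e' ∈ UH := hmem _ he _
    have h2 := hfac _ (cay_mem he')
    change G (icay (cay e')) = _ at h2
    rw [icay_cay he'] at h2
    have h3 : c ≤ ‖u (cay e')‖ ^ (N + 1) := by
      rw [← norm_pow, hug _ (cay_mem he')]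
      refine h1.trans ?_
      rw [h2, norm_mul]
      exact mul_le_of_le_one_left (norm_nonneg _) (BF_le hw' _ (cay_mem he'))
    have h4 : (3 / 4 : ℝ) ≤ ‖u (cay e')‖ := by
      by_contra hcon
      rw [not_le] at hcon
      have h5 : ‖u (cay e')‖ ^ (N + 1) ≤ (3 / 4 : ℝ) ^ (N + 1) :=
        pow_le_pow_left₀ (norm_nonneg _) hcon.le _
      have h6 : (3 / 4 : ℝ) ^ (N + 1) ≤ (3 / 4 : ℝ) ^ N :=
        pow_le_pow_of_le_one (by norm_num) (by norm_num) (Nat.le_succ N)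
      linarith
    have h5 : ‖e' - icay z‖ ≤ 1 / 8 * (icay z).im := by
      rw [he'def, add_sub_cancel_left, Complex.norm_real, Real.norm_eq_abs, abs_mul,
        abs_of_pos he0]
      exact mul_le_mul_of_nonneg_right (ht j hj) he0.le
    have h6 := hU.lip he (w := e') (by
      rw [mem_ball, dist_eq_norm]
      linarith)
    have h7 : 2 * 1 / (icay z).im * ‖e' - icay z‖ ≤ 1 / 4 := by
      rw [div_mul_eq_mul_div, div_le_iff₀ he0]
      linarith
    change ‖u (cay e') - u (cay (icay z))‖ ≤ _ at h6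
    rw [cay_icay hz] at h6
    have h8 := norm_sub_norm_le (u (cay e')) (u z)
    rw [← hug z hz, norm_pow]
    exact pow_le_pow_left₀ (by norm_num) (by linarith) _
  refine ⟨_, hB, h0, 1 / 2 * (1 / 2 : ℝ) ^ (N + 1), by positivity, fun f hf e he ε hε => ?_⟩
  obtain ⟨K, hK⟩ := hf.2
  have hF := lam_hu q hf hK
  obtain ⟨z', hz', h1, h2⟩ := norming (BF_mem hw') (BF_le hw')
    (fun f hf K hK => bf_isometry hw' hf hK) hF.mem (cay_mem he) ε hε
  refine ⟨icay z', icay_im hz', ?_, ?_⟩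
  · have h3 := hfac z' hz'
    change lam q (icay z') (BF w A) = _ at h3
    rw [h3, norm_mul]
    exact mul_le_mul h1 (hglow z' hz') (by positivity) (norm_nonneg _)
  · change ‖lam q (icay (cay e)) f‖ < ‖lam q (icay z') f‖ + ε at h2
    rwa [icay_cay he] at h2

end Pool.Agent.H302Z.GP
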