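import Pool.Agent.H302Z.GP.Basic

set_option autoImplicit false

open Metric Set Filter Topology Complex
open scoped ComplexConjugate

namespace Pool.Agent.H302Z.GP

open Pool.Agent.Helper503.Gp

theorem norm_add_I {w : ℂ} (hw : 0 ≤ w.im) {t : ℝ} (ht : 0 ≤ t) :
    ‖w‖ ≤ ‖w + t * I‖ ∧ t ≤ ‖w + t * I‖ := by
  have h1 : ‖w + t * I‖ ^ 2 = w.re ^ 2 + (w.im + t) ^ 2 := by
    rw [Complex.sq_norm, Complex.normSq_apply]
    simp
    ring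
  have h2 : ‖w‖ ^ 2 = w.re ^ 2 + w.im ^ 2 := by
    rw [Complex.sq_norm, Complex.normSq_apply]
    ring
  constructor
  · refine (pow_le_pow_iff_left₀ (norm_nonneg _) (norm_nonneg _) two_ne_zero).1 ?_
    rw [h1, h2]
    nlinarith
  · refine (pow_le_pow_iff_left₀ ht (norm_nonneg _) two_ne_zero).1 ?_
    rw [h1]
    nlinarith [sq_nonneg w.re]

/-- the bump function -/
noncomputable def ps (δ : ℝ) (w : ℂ) : ℂ := w / (w + δ * I) * (I / (δ * w + (1 : ℝ) * I))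

theorem ps_den {δ : ℝ} (hδ : 0 < δ) {w : ℂ} (hw : w ∈ UH) :
    (‖w‖ ≤ ‖w + δ * I‖ ∧ δ ≤ ‖w + δ * I‖) ∧
      (δ * ‖w‖ ≤ ‖δ * w + (1 : ℝ) * I‖ ∧ 1 ≤ ‖δ * w + (1 : ℝ) * I‖) := by
  have hw' : 0 < w.im := hw
  refine ⟨norm_add_I hw'.le hδ.le, ?_⟩
  have h := norm_add_I (w := δ * w) (by rw [Complex.im_ofReal_mul]; positivity) zero_le_one
  rw [norm_mul, Complex.norm_real, Real.norm_of_nonneg hδ.le] at h
  exact h

theorem ps_norm (δ : ℝ) (w : ℂ) :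
    ‖ps δ w‖ = ‖w‖ / ‖w + δ * I‖ * (1 / ‖δ * w + (1 : ℝ) * I‖) := by
  rw [ps, norm_mul, norm_div, norm_div, Complex.norm_I]

theorem norm_pos_UH {w : ℂ} (hw : w ∈ UH) : 0 < ‖w‖ := by
  rw [norm_pos_iff]
  rintro rfl
  simp [UH] at hw

theorem ps_le {δ : ℝ} (hδ : 0 < δ) {w : ℂ} (hw : w ∈ UH) :
    ‖ps δ w‖ ≤ 1 ∧ ‖ps δ w‖ ≤ ‖w‖ / δ ∧ ‖ps δ w‖ ≤ 1 / (δ * ‖w‖) := by
  obtain ⟨⟨h1, h2⟩, h3, h4⟩ := ps_den hδ hw
  have h0 := norm_pos_UH hw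
  have a1 : ‖w‖ / ‖w + δ * I‖ ≤ 1 := div_le_one_of_le₀ h1 (norm_nonneg _)
  have a2 : ‖w‖ / ‖w + δ * I‖ ≤ ‖w‖ / δ := div_le_div_of_nonneg_left h0.le hδ h2
  have a3 : 1 / ‖δ * w + (1 : ℝ) * I‖ ≤ 1 := div_le_one_of_le₀ h4 (norm_nonneg _)
  have a4 : 1 / ‖δ * w + (1 : ℝ) * I‖ ≤ 1 / (δ * ‖w‖) :=
    div_le_div_of_nonneg_left zero_le_one (by positivity) h3
  rw [ps_norm]
  refine ⟨mul_le_one₀ a1 (by positivity) a3, ?_, ?_⟩
  · exact (mul_le_of_le_one_right (by positivity) a3).trans a2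
  · exact (mul_le_of_le_one_left (by positivity) a1).trans a4

theorem ps_hu {δ : ℝ} (hδ : 0 < δ) : HU 1 (ps δ) := by
  refine ⟨?_, fun w hw => (ps_le hδ hw).1⟩
  unfold ps
  refine DifferentiableOn.mul (DifferentiableOn.div (by fun_prop) (by fun_prop) fun w hw => ?_)
    (DifferentiableOn.div (by fun_prop) (by fun_prop) fun w hw => ?_)
  · rw [← norm_pos_iff]
    exact lt_of_lt_of_le hδ (ps_den hδ hw).1.2
  · rw [← norm_pos_iff]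
    exact lt_of_lt_of_le one_pos (ps_den hδ hw).2.2

theorem ps_I {δ : ℝ} (hδ : 0 < δ) : ps δ I = ((1 / (1 + δ) ^ 2 : ℝ) : ℂ) := by
  have h1 : (1 : ℂ) + δ ≠ 0 := by
    have : ((1 + δ : ℝ) : ℂ) ≠ 0 := by exact_mod_cast (by positivity : (1 + δ : ℝ) ≠ 0)
    exact_mod_cast this
  have e1 : I + δ * I = (1 + δ) * I := by ring
  have e2 : (δ : ℂ) * I + (1 : ℝ) * I = (1 + δ) * I := by push_cast; ring
  rw [ps, e1, e2]
  have hI : (I : ℂ) ≠ 0 := Complex.I_ne_zero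
  push_cast
  field_simp

theorem ps_far {δ : ℝ} (hδ : 0 < δ) {w : ℂ} (hw : w ∈ UH) {T : ℤ} (h1 : 1 ≤ (4:ℝ) ^ T * ‖w‖)
    (h2 : (4:ℝ) ^ T * ‖w‖ ≤ 4) (n : ℕ) :
    ‖ps δ (4 ^ n * w)‖ ≤ 4 / δ * (1 / 4) ^ ((n : ℤ) - T).natAbs := by
  obtain ⟨-, a1, a2⟩ := ps_le hδ (mul_mem hw n)
  have e : ‖(4:ℂ) ^ n * w‖ = (4:ℝ) ^ ((n : ℤ) - T) * ((4:ℝ) ^ T * ‖w‖) := by
    rw [← mul_assoc, ← zpow_add₀ (by norm_num), sub_add_cancel, zpow_natCast, norm_mul, norm_pow]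
    simp
  rw [e] at a1 a2
  rcases Int.natAbs_eq ((n : ℤ) - T) with h | h
  · set k := ((n : ℤ) - T).natAbs
    rw [h, zpow_natCast] at a2
    refine a2.trans ?_
    have h4 : (0:ℝ) < 4 ^ k := by positivity
    rw [one_div_pow, div_mul_div_comm, div_le_div_iff₀ (by positivity) (by positivity)]
    have : (0:ℝ) < δ * 4 ^ k := by positivity
    nlinarith
  · set k := ((n : ℤ) - T).natAbs
    rw [h, zpow_neg, zpow_natCast] at a1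
    refine a1.trans ?_
    have h4 : (0:ℝ) < (4 ^ k)⁻¹ := by positivity
    rw [one_div_pow, div_mul_eq_mul_div, one_div]
    refine div_le_div_of_nonneg_right ?_ hδ.le
    nlinarith

theorem sumZ : Summable fun k : ℤ => (1 / 2 : ℝ) ^ k.natAbs := by
  refine Summable.of_nat_of_neg ?_ ?_
  · simpa using summable_geometric_two
  · simpa using summable_geometric_two

/-- the error of the one-term approximation -/
noncomputable def err (δ : ℝ) (M : ℕ) : ℝ :=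
  4 / δ * (1 / 2) ^ M * ∑' k : ℤ, (1 / 2 : ℝ) ^ k.natAbs

theorem err_nonneg {δ : ℝ} (hδ : 0 < δ) (M : ℕ) : 0 ≤ err δ M := by
  have : 0 ≤ ∑' k : ℤ, (1 / 2 : ℝ) ^ k.natAbs := tsum_nonneg fun _ => by positivity
  unfold err
  positivity

theorem err_small (δ : ℝ) {ε : ℝ} (hε : 0 < ε) : ∃ M, err δ M ≤ ε := by
  have h := ((tendsto_pow_atTop_nhds_zero_of_lt_one (r := (1 / 2 : ℝ)) (by norm_num)
    (by norm_num)).const_mul (4 / δ)).mul_const (∑' k : ℤ, (1 / 2 : ℝ) ^ k.natAbs)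
  rw [mul_zero, zero_mul] at h
  obtain ⟨M, hM⟩ := (h.eventually (ge_mem_nhds hε)).exists
  exact ⟨M, hM⟩

theorem sum_far {δ : ℝ} (hδ : 0 < δ) {w : ℂ} (hw : w ∈ UH) {T : ℤ} (h1 : 1 ≤ (4:ℝ) ^ T * ‖w‖)
    (h2 : (4:ℝ) ^ T * ‖w‖ ≤ 4) {M : ℕ} {C : ℝ} {a : ℕ → ℂ} (ha : ∀ n, ‖a n‖ ≤ C)
    (hM : ∀ n, a n ≠ 0 → (M : ℤ) ≤ |(n : ℤ) - T|) :
    Summable (fun n => a n * ps δ (4 ^ n * w)) ∧
      ‖∑' n, a n * ps δ (4 ^ n * w)‖ ≤ C * err δ M := by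
  have hC : 0 ≤ C := (norm_nonneg _).trans (ha 0)
  have hinj : Function.Injective fun n : ℕ => (n : ℤ) - T := fun n m h => by
    simpa using h
  have hs : Summable fun n : ℕ => (1 / 2 : ℝ) ^ ((n : ℤ) - T).natAbs := sumZ.comp_injective hinj
  have hb : ∀ n, ‖a n * ps δ (4 ^ n * w)‖ ≤
      C * (4 / δ * (1 / 2) ^ M) * (1 / 2 : ℝ) ^ ((n : ℤ) - T).natAbs := by
    intro n
    by_cases h0 : a n = 0
    · rw [h0, zero_mul, norm_zero]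
      positivity
    · have h3 := hM n h0
      have h4 : M ≤ ((n : ℤ) - T).natAbs := by
        rw [← Int.natCast_natAbs] at h3
        exact_mod_cast h3
      have h5 := ps_far hδ hw h1 h2 n
      have h6 : (1 / 4 : ℝ) ^ ((n : ℤ) - T).natAbs ≤
          (1 / 2) ^ M * (1 / 2 : ℝ) ^ ((n : ℤ) - T).natAbs := by
        have : (1 / 4 : ℝ) = 1 / 2 * (1 / 2) := by norm_num
        rw [this, mul_pow]
        exact mul_le_mul_of_nonneg_right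
          (pow_le_pow_of_le_one (by norm_num) (by norm_num) h4) (by positivity)
      rw [norm_mul, mul_assoc, mul_assoc]
      exact mul_le_mul (ha n) (h5.trans (mul_le_mul_of_nonneg_left h6 (by positivity)))
        (norm_nonneg _) hC
  have hs2 := hs.mul_left (C * (4 / δ * (1 / 2) ^ M))
  refine ⟨Summable.of_norm_bounded hs2 hb, (tsum_of_norm_bounded hs2.hasSum hb).trans ?_⟩
  rw [tsum_mul_left, err, mul_assoc]
  refine mul_le_mul_of_nonneg_left (mul_le_mul_of_nonneg_left ?_ (by positivity)) hC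
  exact Summable.tsum_le_tsum_of_inj _ hinj (fun _ _ => by positivity) (fun _ => le_rfl) hs sumZ

theorem sum_core {δ : ℝ} (hδ : 0 < δ) {w : ℂ} (hw : w ∈ UH) {T : ℤ} (h1 : 1 ≤ (4:ℝ) ^ T * ‖w‖)
    (h2 : (4:ℝ) ^ T * ‖w‖ ≤ 4) {M : ℕ} {C : ℝ} {a : ℕ → ℂ} (ha : ∀ n, ‖a n‖ ≤ C) (n0 : ℕ)
    (hM : ∀ n, n ≠ n0 → a n ≠ 0 → (M : ℤ) ≤ |(n : ℤ) - T|) :
    ‖∑' n, a n * ps δ (4 ^ n * w) - a n0 * ps δ (4 ^ n0 * w)‖ ≤ C * err δ M := by
  classical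
  have hC : 0 ≤ C := (norm_nonneg _).trans (ha 0)
  have hs := (sum_far hδ hw h1 h2 (M := 0) ha fun n _ => by simp).1
  rw [hs.tsum_eq_add_tsum_ite n0, add_sub_cancel_left]
  have h3 := (sum_far hδ hw h1 h2 (M := M) (C := C) (a := fun n => if n = n0 then 0 else a n)
    (fun n => by
      split_ifs
      · simpa using hC
      · exact ha n)
    (fun n hn => by
      by_cases h : n = n0
      · simp [h] at hn
      · rw [if_neg h] at hn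
        exact hM n h hn)).2
  refine le_of_eq_of_le ?_ h3
  congr 1
  refine tsum_congr fun n => ?_
  split_ifs <;> simp

/-- sparse sets of indices -/
def Sparse (M : ℕ) (A : Set ℕ) : Prop :=
  ∀ n ∈ A, ∀ m ∈ A, n ≠ m → 2 * (M : ℤ) ≤ |(n : ℤ) - m|

theorem exists_T {w : ℂ} (hw : w ∈ UH) :
    ∃ T : ℤ, 1 ≤ (4:ℝ) ^ T * ‖w‖ ∧ (4:ℝ) ^ T * ‖w‖ ≤ 4 := by
  obtain ⟨k, hk1, hk2⟩ := exists_mem_Ico_zpow (norm_pos_UH hw) (show (1:ℝ) < 4 by norm_num)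
  have h0 : (0:ℝ) < 4 ^ k := by positivity
  refine ⟨-k, ?_, ?_⟩
  · rw [zpow_neg, le_inv_mul_iff₀ h0, mul_one]
    exact hk1
  · rw [zpow_neg, inv_mul_le_iff₀ h0]
    rw [zpow_add₀ (by norm_num), zpow_one] at hk2
    exact hk2.le

theorem dom {δ : ℝ} (hδ : 0 < δ) {M : ℕ} {A : Set ℕ} (hA : Sparse M A) {w : ℂ} (hw : w ∈ UH) :
    ∃ n0 : ℕ, ∀ (C : ℝ) (a : ℕ → ℂ), (∀ n, ‖a n‖ ≤ C) → (∀ n, n ∉ A → a n = 0) →
      ‖∑' n, a n * ps δ (4 ^ n * w) - a n0 * ps δ (4 ^ n0 * w)‖ ≤ C * err δ M := by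
  obtain ⟨T, h1, h2⟩ := exists_T hw
  by_cases h : ∃ n0 ∈ A, |(n0 : ℤ) - T| < M
  · obtain ⟨n0, hn0, h3⟩ := h
    refine ⟨n0, fun C a ha h0 => sum_core hδ hw h1 h2 ha n0 fun n hn hn' => ?_⟩
    have hnA : n ∈ A := by
      by_contra hc
      exact hn' (h0 n hc)
    have h4 := hA n hnA n0 hn0 hn
    have h5 : |(n : ℤ) - n0| ≤ |(n : ℤ) - T| + |(n0 : ℤ) - T| := by
      have : (n : ℤ) - n0 = ((n : ℤ) - T) - ((n0 : ℤ) - T) := by ring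
      rw [this]
      exact abs_sub _ _
    linarith
  · push Not at h
    refine ⟨0, fun C a ha h0 => sum_core hδ hw h1 h2 ha 0 fun n _ hn' => h n ?_⟩
    by_contra hc
    exact hn' (h0 n hc)

theorem at_I {δ : ℝ} (hδ : 0 < δ) {M : ℕ} {C : ℝ} {a : ℕ → ℂ} (ha : ∀ n, ‖a n‖ ≤ C) (m : ℕ)
    (hM : ∀ n, n ≠ m → a n ≠ 0 → (M : ℤ) ≤ |(n : ℤ) - m|) :
    ‖∑' n, a n * ps δ (4 ^ n * (I / 4 ^ m)) - a m * ps δ I‖ ≤ C * err δ M := by
  have hI : I ∈ UH := by simp [UH]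
  have e : (4:ℝ) ^ (m : ℤ) * ‖I / 4 ^ m‖ = 1 := by
    rw [zpow_natCast, norm_div, Complex.norm_I, norm_pow]
    simp
  have h := sum_core hδ (div_mem hI m) (T := m) (by rw [e]) (by rw [e]; norm_num) ha m hM
  have e2 : (4:ℂ) ^ m * (I / 4 ^ m) = I := by field_simp
  rwa [e2] at h

/-- the glued function -/
noncomputable def SS (δ : ℝ) (c : ℕ → ℂ → ℂ) (w : ℂ) : ℂ := ∑' n, c n w * ps δ (4 ^ n * w)

theorem SS_diff {δ : ℝ} (hδ : 0 < δ) {C : ℝ} {c : ℕ → ℂ → ℂ} (hc : ∀ n, HU C (c n)) :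
    DifferentiableOn ℂ (SS δ c) UH := by
  have hC := (hc 0).nonneg
  intro w hw
  have h0 := norm_pos_UH hw
  have hopen : IsOpen (UH ∩ {y : ℂ | ‖w‖ / 2 < ‖y‖}) :=
    isOpen_UH.inter (isOpen_lt continuous_const continuous_norm)
  have hd : DifferentiableOn ℂ (SS δ c) (UH ∩ {y : ℂ | ‖w‖ / 2 < ‖y‖}) := by
    refine Complex.differentiableOn_tsum_of_summable_norm
      (u := fun n => C * (1 / (δ * (‖w‖ / 2))) * (1 / 4) ^ n)
      ((summable_geometric_of_lt_one (by norm_num) (by norm_num)).mul_left _)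
      (fun n => ((hc n).1.mul ((ps_hu hδ).mul4 n).1).mono inter_subset_left) hopen
      fun n y hy => ?_
    have h1 := (ps_le hδ (mul_mem hy.1 n)).2.2
    have h2 : ‖w‖ / 2 < ‖y‖ := hy.2
    rw [norm_mul, mul_assoc]
    refine mul_le_mul ((hc n).2 y hy.1) (h1.trans ?_) (norm_nonneg _) hC
    have e : ‖(4:ℂ) ^ n * y‖ = 4 ^ n * ‖y‖ := by
      rw [norm_mul, norm_pow]; simp
    rw [e, one_div_pow, div_mul_div_comm, mul_one]
    refine div_le_div_of_nonneg_left zero_le_one (by positivity) ?_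
    have h3 : (0:ℝ) < δ * 4 ^ n := by positivity
    nlinarith
  exact (hd.differentiableAt (hopen.mem_nhds ⟨hw, by
    change ‖w‖ / 2 < ‖w‖
    linarith⟩)).differentiableWithinAt

theorem SS_hu {δ : ℝ} (hδ : 0 < δ) {M : ℕ} {A : Set ℕ} (hA : Sparse M A) {C : ℝ}
    {c : ℕ → ℂ → ℂ} (hc : ∀ n, HU C (c n)) (h0 : ∀ n, n ∉ A → c n = 0) :
    HU (C * (1 + err δ M)) (SS δ c) := by
  refine ⟨SS_diff hδ hc, fun w hw => ?_⟩
  obtain ⟨n0, h⟩ := dom hδ hA hw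
  have h1 := h C (fun n => c n w) (fun n => (hc n).2 w hw) fun n hn => by rw [h0 n hn]; rfl
  have h2 : ‖c n0 w * ps δ (4 ^ n0 * w)‖ ≤ C := by
    rw [norm_mul]
    exact (mul_le_of_le_one_right (norm_nonneg _) (ps_le hδ (mul_mem hw n0)).1).trans
      ((hc n0).2 w hw)
  have h3 : ‖SS δ c w‖ ≤ ‖SS δ c w - c n0 w * ps δ (4 ^ n0 * w)‖ + ‖c n0 w * ps δ (4 ^ n0 * w)‖ := by
    calc ‖SS δ c w‖ = ‖(SS δ c w - c n0 w * ps δ (4 ^ n0 * w)) + c n0 w * ps δ (4 ^ n0 * w)‖ := by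
          rw [sub_add_cancel]
      _ ≤ _ := norm_add_le _ _
  change ‖SS δ c w - c n0 w * ps δ (4 ^ n0 * w)‖ ≤ _ at h1
  linarith

end Pool.Agent.H302Z.GP
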