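import Pool.Agent.H302Z.GP.Bump

set_option autoImplicit false

open Metric Set Filter Topology Complex
open scoped ComplexConjugate

namespace Pool.Agent.H302Z.GP

open Pool.Agent.Helper503.Gp

open Classical in
/-- keep only the indices in `A` -/
noncomputable def cut (A : Set ℕ) (c : ℕ → ℂ → ℂ) (n : ℕ) : ℂ → ℂ := if n ∈ A then c n else 0

theorem cut_mem {A : Set ℕ} (c : ℕ → ℂ → ℂ) {n : ℕ} (h : n ∈ A) : cut A c n = c n := by
  rw [cut, if_pos h]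

theorem cut_not {A : Set ℕ} (c : ℕ → ℂ → ℂ) {n : ℕ} (h : n ∉ A) : cut A c n = 0 := by
  rw [cut, if_neg h]

theorem cut_hu (A : Set ℕ) {C : ℝ} {c : ℕ → ℂ → ℂ} (hc : ∀ n, HU C (c n)) (n : ℕ) :
    HU C (cut A c n) := by
  by_cases h : n ∈ A
  · rw [cut_mem c h]; exact hc n
  · rw [cut_not c h]
    exact ⟨differentiableOn_const 0, fun _ _ => by simpa using (hc 0).nonneg⟩

theorem I_mem : I ∈ UH := by simp [UH]

theorem Sparse.mono {M : ℕ} {A B : Set ℕ} (h : Sparse M A) (hB : B ⊆ A) : Sparse M B :=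
  fun n hn m hm => h n (hB hn) m (hB hm)

theorem cut_SS {δ : ℝ} (hδ : 0 < δ) {M : ℕ} {A : Set ℕ} (hA : Sparse M A) {C : ℝ}
    {c : ℕ → ℂ → ℂ} (hc : ∀ n, HU C (c n)) : HU (C * (1 + err δ M)) (SS δ (cut A c)) :=
  SS_hu hδ hA (cut_hu A hc) fun _ hn => cut_not c hn

theorem x_val {δ : ℝ} (hδ : 0 < δ) {M : ℕ} {A : Set ℕ} (hA : Sparse M A) {C : ℝ}
    {c : ℕ → ℂ → ℂ} (hc' : ∀ n, HU C (c n)) {p : Ultrafilter ℕ} (hp : A ∈ p) {a : ℂ}
    (ha : ∀ m, c m (I / 4 ^ m) = a) :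
    ‖hc (lam p I) (SS δ (cut A c)) - a * ps δ I‖ ≤ C * err δ M := by
  have h1 := ((hc_lam p I_mem (cut_SS hδ hA hc')).sub_const (a * ps δ I)).norm
  refine le_of_tendsto h1 ?_
  filter_upwards [hp] with m hm
  have h2 := at_I hδ (M := M) (C := C) (a := fun n => cut A c n (I / 4 ^ m))
    (fun n => (cut_hu A hc' n).2 _ (div_mem I_mem m)) m (fun n hn hn' => by
      have hnA : n ∈ A := by
        by_contra hcon
        apply hn'
        rw [cut_not c hcon]; rfl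
      have := hA n hnA m hm hn
      have h0 : (0:ℤ) ≤ M := Int.natCast_nonneg M
      linarith)
  rw [cut_mem c hm, ha m] at h2
  exact h2

theorem x_far {δ : ℝ} (hδ : 0 < δ) {M : ℕ} {A : Set ℕ} (hA : Sparse M A) {C : ℝ}
    {c : ℕ → ℂ → ℂ} (hc' : ∀ n, HU C (c n)) {q : Ultrafilter ℕ} {B : Set ℕ} (hq : B ∈ q)
    (hB : ∀ m ∈ B, ∀ n ∈ A, (M : ℤ) < |(n : ℤ) - m|) :
    ‖hc (lam q I) (SS δ (cut A c))‖ ≤ C * err δ M := by
  have h1 := (hc_lam q I_mem (cut_SS hδ hA hc')).norm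
  refine le_of_tendsto h1 ?_
  filter_upwards [hq] with m hm
  have h2 := at_I hδ (M := M) (C := C) (a := fun n => cut A c n (I / 4 ^ m))
    (fun n => (cut_hu A hc' n).2 _ (div_mem I_mem m)) m (fun n _ hn' => by
      have hnA : n ∈ A := by
        by_contra hcon
        apply hn'
        rw [cut_not c hcon]; rfl
      exact (hB m hm n hnA).le)
  have hmA : m ∉ A := by
    intro h
    have := hB m hm m h
    rw [sub_self, abs_zero] at this
    have h0 : (0:ℤ) ≤ M := Int.natCast_nonneg M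
    linarith
  rw [cut_not c hmA] at h2
  simpa [SS] using h2

/-- the cut-off function of `A` -/
noncomputable def Phi (δ : ℝ) (A : Set ℕ) : ℂ → ℂ := SS δ (cut A fun _ => 1)

theorem near_one {r : ℝ} (hr0 : 0 ≤ r) (hr1 : r < 1) {γ : ℝ} (hγ : 0 < γ) :
    ∃ t : ℝ, 0 < t ∧ ∀ (p : Ultrafilter ℕ) (y : (ℂ → ℂ) → ℂ), IsChar y → RB (lam p I) y r →
      ∀ M : ℕ, err t M ≤ t → ∀ A ∈ p, Sparse M A → ‖hc y (Phi t A) - 1‖ ≤ γ := by
  have h1r : 0 < 1 - r := by linarith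
  refine ⟨γ * (1 - r) / 13, by positivity, fun p y hy hr M hM A hp hA => ?_⟩
  set t := γ * (1 - r) / 13 with ht
  have ht0 : 0 < t := by positivity
  set ε := err t M with hε
  have hε0 : 0 ≤ ε := err_nonneg ht0 M
  have hx := lam_char p I_mem
  have hP : HU (1 * (1 + ε)) (Phi t A) := cut_SS ht0 hA fun _ => hu_one
  have hv : ‖hc (lam p I) (Phi t A) - 1 * ps t I‖ ≤ 1 * ε :=
    x_val ht0 hA (fun _ => hu_one) hp (a := 1) fun _ => rfl
  rw [one_mul, one_mul, ps_I ht0] at hv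
  have hF := hP.smul (((1 + ε)⁻¹ : ℝ) : ℂ)
  have e1 : ‖(((1 + ε)⁻¹ : ℝ) : ℂ)‖ * (1 * (1 + ε)) = 1 := by
    rw [Complex.norm_real, Real.norm_of_nonneg (by positivity), one_mul,
      inv_mul_cancel₀ (by positivity)]
  rw [e1] at hF
  have ex := hc_smul hx hP (((1 + ε)⁻¹ : ℝ) : ℂ)
  have ey := hc_smul hy hP (((1 + ε)⁻¹ : ℝ) : ℂ)
  set F := (((1 + ε)⁻¹ : ℝ) : ℂ) • Phi t A
  have hne : ((1 + ε : ℝ) : ℂ) ≠ 0 := by exact_mod_cast (by positivity : (1 + ε : ℝ) ≠ 0)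
  have ex' : hc (lam p I) (Phi t A) = ((1 + ε : ℝ) : ℂ) * hc (lam p I) F := by
    rw [ex, Complex.ofReal_inv, ← mul_assoc, mul_inv_cancel₀ hne, one_mul]
  have ey' : hc y (Phi t A) = ((1 + ε : ℝ) : ℂ) * hc y F := by
    rw [ey, Complex.ofReal_inv, ← mul_assoc, mul_inv_cancel₀ hne, one_mul]
  set b := hc (lam p I) F
  set s : ℝ := 1 / (1 + t) ^ 2 with hs
  have hs1 : s < 1 := by
    rw [hs, div_lt_one (by positivity)]
    nlinarith
  have hs2 : 1 - 2 * t ≤ s := by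
    rw [hs, le_div_iff₀ (by positivity)]
    nlinarith [sq_nonneg t, mul_pos ht0 (mul_pos ht0 ht0)]
  have hs0 : 0 < s := by positivity
  rw [ex'] at hv
  have hb1 : ‖b‖ ≤ 1 := hc_le hx hF
  have hb : ‖b‖ < 1 := by
    have h1 : ‖((1 + ε : ℝ) : ℂ) * b‖ ≤ ‖((1 + ε : ℝ) : ℂ) * b - (s : ℂ)‖ + ‖(s : ℂ)‖ := by
      calc ‖((1 + ε : ℝ) : ℂ) * b‖ = ‖(((1 + ε : ℝ) : ℂ) * b - (s : ℂ)) + (s : ℂ)‖ := by
            rw [sub_add_cancel]
        _ ≤ _ := norm_add_le _ _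
    rw [norm_mul, Complex.norm_real, Complex.norm_real, Real.norm_of_nonneg (by positivity),
      Real.norm_of_nonneg hs0.le] at h1
    by_contra hcon
    rw [not_lt] at hcon
    nlinarith
  have hb2 : ‖b - 1‖ ≤ 4 * t := by
    have e : b - 1 = (((1 + ε : ℝ) : ℂ) * b - (s : ℂ)) - (ε : ℂ) * b - ((1 - s : ℝ) : ℂ) := by
      push_cast; ring
    rw [e]
    have h1 := norm_sub_le ((((1 + ε : ℝ) : ℂ) * b - (s : ℂ)) - (ε : ℂ) * b) ((1 - s : ℝ) : ℂ)
    have h2 := norm_sub_le (((1 + ε : ℝ) : ℂ) * b - (s : ℂ)) ((ε : ℂ) * b)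
    rw [norm_mul, Complex.norm_real, Real.norm_of_nonneg hε0] at h2
    rw [Complex.norm_real, Real.norm_of_nonneg (by linarith)] at h1
    nlinarith [norm_nonneg b]
  have hb3 : 1 - ‖b‖ ≤ 4 * t := by
    have := norm_sub_norm_le (1 : ℂ) b
    rw [norm_one, norm_sub_rev] at this
    linarith
  have h4 := rb_one hx hy hr0 hr1 hr hF hb
  have h5 : ‖hc y F‖ ≤ 1 := hc_le hy hF
  have h6 : hc y (Phi t A) - 1 = (hc y F - b) + (b - 1) + (ε : ℂ) * hc y F := by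
    rw [ey']; push_cast; ring
  rw [h6]
  have h7 := norm_add_le ((hc y F - b) + (b - 1)) ((ε : ℂ) * hc y F)
  have h8 := norm_add_le (hc y F - b) (b - 1)
  rw [norm_mul, Complex.norm_real, Real.norm_of_nonneg hε0] at h7
  have h9 : ε * ‖hc y F‖ ≤ t := (mul_le_of_le_one_right hε0 h5).trans hM
  have h10 : (1 - r) * (‖hc y F - b‖ + 5 * t) ≤ (1 - r) * γ := by
    have : (1 - r) * γ = 13 * t := by rw [ht]; ring
    rw [this]
    nlinarith
  have h11 := le_of_mul_le_mul_left h10 h1r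
  linarith

theorem dslope_le {f : ℂ → ℂ} (hf : DifferentiableOn ℂ f (ball (0:ℂ) 1))
    (hf1 : ∀ z ∈ ball (0:ℂ) 1, ‖f z‖ ≤ 1) {ζ : ℂ} {s : ℝ} (hs : s < 1) (hζ : ‖ζ‖ ≤ s) :
    ∀ z ∈ ball (0:ℂ) 1, ‖dslope f ζ z‖ ≤ 2 / (1 - s) := by
  intro z hz
  have h1s : 0 < 1 - s := by linarith
  have hζb : ζ ∈ ball (0:ℂ) 1 := mem_ball_zero_iff.2 (by linarith)
  have hsub : ball ζ (1 - s) ⊆ ball (0:ℂ) 1 := by
    intro y hy
    rw [mem_ball, dist_eq_norm] at hy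
    rw [mem_ball_zero_iff]
    have : ‖y‖ ≤ ‖y - ζ‖ + ‖ζ‖ := by
      calc ‖y‖ = ‖(y - ζ) + ζ‖ := by rw [sub_add_cancel]
        _ ≤ _ := norm_add_le _ _
    linarith
  have h2 : ∀ y ∈ ball (0:ℂ) 1, ‖f y - f ζ‖ ≤ 2 := fun y hy =>
    (norm_sub_le _ _).trans (by linarith [hf1 y hy, hf1 ζ hζb])
  by_cases h : z ∈ ball ζ (1 - s)
  · exact Complex.norm_dslope_le_div_of_mapsTo_ball (hf.mono hsub) (fun y hy => by
      rw [mem_closedBall, dist_eq_norm]; exact h2 y (hsub hy)) h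
  · rw [mem_ball, dist_eq_norm, not_lt] at h
    have hne : z ≠ ζ := by
      intro h0
      rw [h0, sub_self, norm_zero] at h
      linarith
    rw [dslope_of_ne f hne, slope_def_field, norm_div]
    exact div_le_div₀ (by norm_num) (h2 z hz) h1s h

theorem exists_class (p : Ultrafilter ℕ) {K : ℕ} (hK : 0 < K) :
    ∃ a : ℕ, {n | n ≡ a [MOD K]} ∈ p := by
  have : NeZero K := ⟨hK.ne'⟩
  obtain ⟨a, ha⟩ := Ultrafilter.eq_pure_of_finite (p.map fun n : ℕ => (n : ZMod K))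
  have h1 : ({a} : Set (ZMod K)) ∈ p.map fun n : ℕ => (n : ZMod K) := by
    rw [ha]; simp
  rw [Ultrafilter.mem_map] at h1
  refine ⟨a.val, Filter.mem_of_superset h1 fun n hn => ?_⟩
  have h2 : (n : ZMod K) = a := hn
  change n ≡ a.val [MOD K]
  rw [← ZMod.natCast_eq_natCast_iff, ZMod.natCast_zmod_val]
  exact h2

theorem sparse_class {M K : ℕ} (h : 2 * M ≤ K) (a : ℕ) : Sparse M {n | n ≡ a [MOD K]} := by
  intro n hn m hm hnm
  have h1 : m ≡ n [MOD K] := (show m ≡ a [MOD K] from hm).trans (show n ≡ a [MOD K] from hn).symm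
  have h2 : (K : ℤ) ∣ |(n : ℤ) - m| := (dvd_abs _ _).2 h1.dvd
  have h3 : 0 < |(n : ℤ) - m| := abs_pos.2 (sub_ne_zero.2 (by exact_mod_cast hnm))
  have h4 := Int.le_of_dvd h3 h2
  have h5 : (2 * M : ℤ) ≤ K := by exact_mod_cast h
  linarith

theorem prod_est {a a' b b' : ℂ} {s t A B : ℝ} (h1 : ‖a - a'‖ ≤ s) (h2 : ‖b - b'‖ ≤ t)
    (h3 : ‖a'‖ ≤ A) (h4 : ‖b'‖ ≤ B) : ‖a * b - a' * b'‖ ≤ s * (B + t) + A * t := by
  have e : a * b - a' * b' = (a - a') * (b' + (b - b')) + a' * (b - b') := by ring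
  rw [e]
  refine (norm_add_le _ _).trans (add_le_add ?_ ?_)
  · rw [norm_mul]
    exact mul_le_mul h1 ((norm_add_le _ _).trans (add_le_add h4 h2)) (norm_nonneg _)
      ((norm_nonneg _).trans h1)
  · rw [norm_mul]
    exact mul_le_mul h3 h2 (norm_nonneg _) ((norm_nonneg _).trans h3)

theorem alg_est {u PB P G Th ζ α α' γ0 θ1 : ℂ} {ε D : ℝ} (hε : ε ≤ 1) (hD : 0 ≤ D)
    (h1 : ‖PB - α‖ ≤ ε) (h2 : ‖P - α'‖ ≤ ε) (h3 : ‖G - γ0‖ ≤ D * ε) (h4 : ‖Th - θ1‖ ≤ ε)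
    (h5 : ‖α‖ ≤ 1) (h6 : ‖α'‖ ≤ 1) (h7 : ‖γ0‖ ≤ D) (h8 : ‖θ1‖ ≤ 1) (h9 : ‖ζ‖ ≤ 1)
    (h10 : ‖u‖ ≤ 2) (h11 : ‖u * (α * α') - γ0 * (θ1 - ζ * α')‖ ≤ ε) :
    ‖u * (PB * P) - G * (Th - ζ * P)‖ ≤ (7 + 6 * D) * ε := by
  have hε0 : 0 ≤ ε := (norm_nonneg _).trans h1
  have a1 := prod_est h1 h2 h5 h6
  have a2 : ‖(Th - ζ * P) - (θ1 - ζ * α')‖ ≤ 2 * ε := by
    have e : (Th - ζ * P) - (θ1 - ζ * α') = (Th - θ1) - ζ * (P - α') := by ring
    rw [e]
    refine (norm_sub_le _ _).trans ?_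
    rw [norm_mul]
    have := mul_le_mul h9 h2 (norm_nonneg _) zero_le_one
    linarith
  have a3 : ‖θ1 - ζ * α'‖ ≤ 2 := by
    refine (norm_sub_le _ _).trans ?_
    rw [norm_mul]
    have := mul_le_mul h9 h6 (norm_nonneg _) zero_le_one
    linarith
  have a4 := prod_est h3 a2 h7 a3
  have a5 : ‖u * (PB * P - α * α')‖ ≤ 2 * (ε * (1 + ε) + 1 * ε) := by
    rw [norm_mul]
    exact mul_le_mul h10 a1 (norm_nonneg _) (by norm_num)
  have e : u * (PB * P) - G * (Th - ζ * P) = u * (PB * P - α * α') +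
      (u * (α * α') - γ0 * (θ1 - ζ * α')) - (G * (Th - ζ * P) - γ0 * (θ1 - ζ * α')) := by ring
  rw [e]
  have b1 := norm_sub_le (u * (PB * P - α * α') + (u * (α * α') - γ0 * (θ1 - ζ * α')))
    (G * (Th - ζ * P) - γ0 * (θ1 - ζ * α'))
  have b2 := norm_add_le (u * (PB * P - α * α')) (u * (α * α') - γ0 * (θ1 - ζ * α'))
  have b3 : ε * ε ≤ ε := by nlinarith
  have b4 : D * (ε * ε) ≤ D * ε := mul_le_mul_of_nonneg_left b3 hD
  nlinarith

theorem tau_hu (n : ℕ) : HU 1 (fun w => cay (4 ^ n * w)) :=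
  (show HU 1 cay from ⟨cay_diff, fun _ hw => (mem_ball_zero_iff.1 (cay_mem hw)).le⟩).mul4 n

/-- every point of the Gleason part of `lam p I` is a uniform limit of points `lam p e` -/
theorem approx (p : Ultrafilter ℕ) {y : (ℂ → ℂ) → ℂ} (hy : IsChar y) (hg : Gl (lam p I) y)
    {η : ℝ} (hη : 0 < η) :
    ∃ e ∈ UH, ∀ f ∈ HI, (∀ z ∈ ball (0:ℂ) 1, ‖f z‖ ≤ 1) → ‖y f - lam p e f‖ ≤ η := by
  have hx := lam_char p I_mem
  obtain ⟨r, hr0, hr1, hr⟩ := gl_rho hx hy hg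
  have h1r : 0 < 1 - r := by linarith
  obtain ⟨t, ht0, ht⟩ := near_one hr0 hr1 (γ := (1 - r) / 4) (by positivity)
  set s : ℝ := (1 + r) / 2 with hs
  have hs1 : s < 1 := by rw [hs]; linarith
  set D : ℝ := 2 / (1 - s) with hD
  have hD0 : 0 < D := by
    have : 0 < 1 - s := by linarith
    positivity
  obtain ⟨ε, hε0, hε1, hε2, hε3⟩ : ∃ ε : ℝ, 0 < ε ∧ ε ≤ t ∧ ε ≤ (1 - r) / 12 ∧
      (7 + 6 * D) * ε ≤ η / 4 := by
    refine ⟨min t (min ((1 - r) / 12) (η / 4 / (7 + 6 * D))), by positivity, min_le_left _ _,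
      (min_le_right _ _).trans (min_le_left _ _), ?_⟩
    rw [← le_div_iff₀' (by positivity)]
    exact (min_le_right _ _).trans (min_le_right _ _)
  obtain ⟨M, hM⟩ := err_small t hε0
  have hM0 := err_nonneg ht0 M
  obtain ⟨a, ha⟩ := exists_class p (K := 2 * M + 1) (by omega)
  set A : Set ℕ := {n | n ≡ a [MOD (2 * M + 1)]}
  have hA : Sparse M A := sparse_class (by omega) a
  have hP : HU (1 * (1 + err t M)) (Phi t A) := cut_SS ht0 hA fun _ => hu_one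
  have hTh : HU (1 * (1 + err t M)) (SS t (cut A fun n w => cay (4 ^ n * w))) :=
    cut_SS ht0 hA tau_hu
  set Th := SS t (cut A fun n w => cay (4 ^ n * w)) with hThdef
  have hyP := ht p y hy hr M (hM.trans hε1) A ha hA
  have lowP : ∀ v : ℂ, ‖v - 1‖ ≤ (1 - r) / 4 → 1 - (1 - r) / 4 ≤ ‖v‖ := by
    intro v hv
    have := norm_sub_norm_le (1 : ℂ) v
    rw [norm_one, norm_sub_rev] at this
    linarith
  have hyP1 := lowP _ hyP
  have hxTh : ‖hc (lam p I) Th‖ ≤ ε := by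
    have h1 := x_val ht0 hA tau_hu ha (a := 0) fun m => by
      have e2 : (4:ℂ) ^ m * (I / 4 ^ m) = I := by field_simp
      rw [e2, cay_I]
    rw [zero_mul, sub_zero, one_mul] at h1
    exact h1.trans hM
  have hyTh : ‖hc y Th‖ ≤ r + 3 * ε := by
    have h1 := rb_small hx hy hr hTh (by positivity)
    have h2 : r * (1 * (1 + err t M) + ‖hc (lam p I) Th‖) ≤ r * (1 + 2 * ε) :=
      mul_le_mul_of_nonneg_left (by linarith) hr0
    nlinarith
  have hyP0 : hc y (Phi t A) ≠ 0 := by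
    rw [← norm_pos_iff]
    linarith
  set ζ := hc y Th / hc y (Phi t A) with hζdef
  have hζ : ‖ζ‖ ≤ s := by
    rw [hζdef, norm_div, div_le_iff₀ (by linarith)]
    have : s * (1 - (1 - r) / 4) ≤ s * ‖hc y (Phi t A)‖ :=
      mul_le_mul_of_nonneg_left hyP1 (by rw [hs]; linarith)
    have h2 : r + 3 * ε ≤ s * (1 - (1 - r) / 4) := by
      rw [hs]; nlinarith
    linarith
  have hζb : ζ ∈ ball (0:ℂ) 1 := mem_ball_zero_iff.2 (by linarith)
  refine ⟨icay ζ, icay_im hζb, fun f hf hf1 => ?_⟩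
  have hF : HU 1 (f ∘ cay) := hu_cay hf.1 hf1
  set F := f ∘ cay with hFdef
  set c := lam p (icay ζ) f with hcdef
  have hc1 : ‖c‖ ≤ 1 := char_le (lam_char p (icay_im hζb)) hf hf1
  -- the rescaled functions on the disc
  set fn : ℕ → ℂ → ℂ := fun n => (fun w => F (w / 4 ^ n)) ∘ icay with hfn
  have hfn1 : ∀ n, DifferentiableOn ℂ (fn n) (ball (0:ℂ) 1) := fun n => (hF.div n).mem.1
  have hfn2 : ∀ n, ∀ z ∈ ball (0:ℂ) 1, ‖fn n z‖ ≤ 1 := fun n => (hF.div n).le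
  have hg' : ∀ n, HU D (fun w => (dslope (fn n) ζ ∘ cay) (4 ^ n * w)) := fun n =>
    (hu_cay ((Complex.differentiableOn_dslope (isOpen_ball.mem_nhds hζb)).2 (hfn1 n))
      (dslope_le (hfn1 n) (hfn2 n) hs1 hζ)).mul4 n
  set g : ℕ → ℂ → ℂ := fun n w => (dslope (fn n) ζ ∘ cay) (4 ^ n * w) with hgdef
  have hB0 : {n | ‖fn n ζ - c‖ ≤ ε} ∈ p := by
    have h1 := (Metric.tendsto_nhds.1 (lam_spec p (icay_im hζb) hf)) ε hε0
    refine Filter.mem_of_superset h1 fun n hn => ?_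
    have h2 : dist (f (cay (icay ζ / 4 ^ n))) c < ε := hn
    rw [dist_eq_norm] at h2
    exact h2.le
  set B : Set ℕ := A ∩ {n | ‖fn n ζ - c‖ ≤ ε} with hBdef
  have hBp : B ∈ p := Filter.inter_mem ha hB0
  have hBA : B ⊆ A := inter_subset_left
  have hB : Sparse M B := hA.mono hBA
  have hPB : HU (1 * (1 + err t M)) (Phi t B) := cut_SS ht0 hB fun _ => hu_one
  have hG : HU (D * (1 + err t M)) (SS t (cut B g)) := cut_SS ht0 hB hg'
  set G := SS t (cut B g) with hGdef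
  have hyPB1 := lowP _ (ht p y hy hr M (hM.trans hε1) B hBp hB)
  have hu := hF.add (hu_one.smul (-c))
  have hv := hTh.add (hP.smul (-ζ))
  have hW1 := hu.mul (hPB.mul hP)
  have hW2 := (hG.mul hv).smul (-1)
  have hW : HU ((7 + 6 * D) * ε) ((F + (-c) • (1 : ℂ → ℂ)) * (Phi t B * Phi t A) +
      (-1 : ℂ) • (G * (Th + (-ζ) • Phi t A))) := by
    refine ⟨(hW1.add hW2).1, fun w hw => ?_⟩
    obtain ⟨n0, h⟩ := dom ht0 hA hw
    have key : ∀ (C : ℝ) (E : Set ℕ) (c' : ℕ → ℂ → ℂ), E ⊆ A → (∀ n, HU C (c' n)) →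
        ‖SS t (cut E c') w - cut E c' n0 w * ps t (4 ^ n0 * w)‖ ≤ C * ε ∧
          ‖cut E c' n0 w * ps t (4 ^ n0 * w)‖ ≤ C := by
      intro C E c' hE hc'
      refine ⟨(h C (fun n => cut E c' n w) (fun n => (cut_hu E hc' n).2 w hw) fun n hn => by
        rw [cut_not c' fun h' => hn (hE h')]; rfl).trans
          (mul_le_mul_of_nonneg_left hM (hc' 0).nonneg), ?_⟩
      rw [norm_mul]
      exact (mul_le_of_le_one_right (norm_nonneg _) (ps_le ht0 (mul_mem hw n0)).1).trans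
        ((cut_hu E hc' n0).2 w hw)
    obtain ⟨k1, k1'⟩ := key 1 B (fun _ => 1) hBA fun _ => hu_one
    obtain ⟨k2, k2'⟩ := key 1 A (fun _ => 1) subset_rfl fun _ => hu_one
    obtain ⟨k3, k3'⟩ := key D B g hBA hg'
    obtain ⟨k4, k4'⟩ := key 1 A (fun n w => cay (4 ^ n * w)) subset_rfl tau_hu
    rw [one_mul] at k1 k2 k4
    have k5 : ‖F w - c‖ ≤ 2 := (norm_sub_le _ _).trans (by linarith [hF.2 w hw])
    have k6 := alg_est (u := F w - c) (ζ := ζ) (by linarith) hD0.le k1 k2 k3 k4 k1' k2' k3' k4'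
      (by linarith) k5 (by
        by_cases hn0 : n0 ∈ B
        · rw [cut_mem _ hn0, cut_mem _ hn0, cut_mem _ (hBA hn0), cut_mem _ (hBA hn0)]
          have e1 := sub_smul_dslope (fn n0) ζ (cay (4 ^ n0 * w))
          have e2 : fn n0 (cay (4 ^ n0 * w)) = F w := by
            change F (icay (cay (4 ^ n0 * w)) / 4 ^ n0) = F w
            rw [icay_cay (mul_mem hw n0)]
            congr 1
            field_simp
          rw [e2, smul_eq_mul] at e1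
          have e3 : (F w - c) * ((1 : ℂ → ℂ) w * ps t (4 ^ n0 * w) *
              ((1 : ℂ → ℂ) w * ps t (4 ^ n0 * w))) - g n0 w * ps t (4 ^ n0 * w) *
                (cay (4 ^ n0 * w) * ps t (4 ^ n0 * w) -
                  ζ * ((1 : ℂ → ℂ) w * ps t (4 ^ n0 * w))) =
              (fn n0 ζ - c) * (ps t (4 ^ n0 * w) * ps t (4 ^ n0 * w)) := by
            have e4 : g n0 w = dslope (fn n0) ζ (cay (4 ^ n0 * w)) := rfl
            rw [e4, Pi.one_apply]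
            linear_combination (-(ps t (4 ^ n0 * w) * ps t (4 ^ n0 * w))) * e1
          rw [e3, norm_mul, norm_mul]
          have h1 := (ps_le ht0 (mul_mem hw n0)).1
          exact (mul_le_of_le_one_right (norm_nonneg _)
            (mul_le_one₀ h1 (norm_nonneg _) h1)).trans hn0.2
        · rw [cut_not _ hn0, cut_not _ hn0]
          simpa using hε0.le)
    refine le_of_eq_of_le ?_ k6
    congr 1
    simp only [Pi.add_apply, Pi.mul_apply, Pi.smul_apply, smul_eq_mul, Pi.one_apply]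
    change _ = (F w - c) * (Phi t B w * Phi t A w) - G w * (Th w - ζ * Phi t A w)
    ring
  have hfin := hc_le hy hW
  rw [hc_add hy hW1 hW2, hc_mul hy hu (hPB.mul hP), hc_smul hy (hG.mul hv), hc_mul hy hG hv,
    hc_mul hy hPB hP, hc_add hy hF (hu_one.smul (-c)), hc_smul hy hu_one, hc_one hy,
    hc_add hy hTh (hP.smul (-ζ)), hc_smul hy hP] at hfin
  have e0 : hc y Th + -ζ * hc y (Phi t A) = 0 := by
    rw [hζdef]
    field_simp
    ring
  rw [e0, mul_zero, mul_zero, add_zero, hc_cay hy hf, norm_mul, norm_mul, mul_one,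
    ← sub_eq_add_neg] at hfin
  have h1 : (1 / 2 : ℝ) * (1 / 2) ≤ ‖hc y (Phi t B)‖ * ‖hc y (Phi t A)‖ :=
    mul_le_mul (by linarith) (by linarith) (by norm_num) (norm_nonneg _)
  have h2 := mul_le_mul_of_nonneg_left h1 (norm_nonneg (y f - c))
  linarith

/-- ultrafilters whose residues are far apart give different parts -/
theorem not_gl {p q : Ultrafilter ℕ}
    (h : ∀ M : ℕ, ∃ A ∈ p, ∃ B ∈ q, Sparse M A ∧ ∀ m ∈ B, ∀ n ∈ A, (M : ℤ) < |(n : ℤ) - m|) :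
    ¬ Gl (lam p I) (lam q I) := by
  intro hg
  have hx := lam_char p I_mem
  have hy := lam_char q I_mem
  obtain ⟨r, hr0, hr1, hr⟩ := gl_rho hx hy hg
  obtain ⟨t, ht0, ht⟩ := near_one hr0 hr1 (γ := 1 / 4) (by positivity)
  obtain ⟨M, hM⟩ := err_small t (ε := min t (1 / 4)) (by positivity)
  obtain ⟨A, hA, B, hB, h1, h2⟩ := h M
  have h3 := ht p _ hy hr M (hM.trans (min_le_left _ _)) A hA h1
  have h4 : ‖hc (lam q I) (Phi t A)‖ ≤ 1 * err t M := x_far ht0 h1 (fun _ => hu_one) hB h2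
  have h5 := norm_sub_norm_le (1 : ℂ) (hc (lam q I) (Phi t A))
  rw [norm_one, norm_sub_rev] at h5
  have h6 := hM.trans (min_le_right _ _)
  linarith

end Pool.Agent.H302Z.GP
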