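import Mathlib

set_option autoImplicit false

open Metric Set Filter Topology

namespace Pool.Agent.H302Z.GP

variable {X A : Type} [TopologicalSpace X] [CommRing A] [Algebra ℂ A] (ev : X → A →ₐ[ℂ] ℂ)

theorem clos_iff (hind : IsInducing fun (x : X) (f : A) => ev x f) (y : X) (P : Set X) :
    y ∈ closure P ↔
      ∀ s : Finset A, ∀ ε : ℝ, 0 < ε → ∃ x ∈ P, ∀ f ∈ s, ‖ev x f - ev y f‖ < ε := by
  rw [hind.closure_eq_preimage_closure_image, mem_preimage]
  constructor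
  · intro h s ε hε
    rw [_root_.mem_closure_iff] at h
    obtain ⟨z, hz1, hz2⟩ := h {z | ∀ f ∈ s, ‖z f - ev y f‖ < ε} (by
      have : {z : A → ℂ | ∀ f ∈ s, ‖z f - ev y f‖ < ε} =
          ⋂ f ∈ s, {z : A → ℂ | ‖z f - ev y f‖ < ε} := by
        ext z; simp
      rw [this]
      refine isOpen_biInter_finset fun f _ => ?_
      exact isOpen_lt (((continuous_apply f).sub continuous_const).norm) continuous_const)
      (fun f _ => by rw [sub_self, norm_zero]; exact hε)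
    obtain ⟨x, hx, rfl⟩ := hz2
    exact ⟨x, hx, hz1⟩
  · intro h
    rw [_root_.mem_closure_iff]
    intro o ho hyo
    rw [isOpen_pi_iff] at ho
    obtain ⟨I, u, hu, hIo⟩ := ho _ hyo
    have hε : ∃ ε : ℝ, 0 < ε ∧ ∀ f ∈ I, ball (ev y f) ε ⊆ u f := by
      clear hIo
      induction I using Finset.cons_induction with
      | empty => exact ⟨1, one_pos, fun f hf => absurd hf (Finset.notMem_empty f)⟩
      | cons a J ha ih =>
        obtain ⟨ε, hε, h1⟩ := ih fun f hf => hu f (Finset.mem_cons_of_mem hf)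
        obtain ⟨δ, hδ, h2⟩ := Metric.isOpen_iff.1 (hu a (Finset.mem_cons_self a J)).1 _
          (hu a (Finset.mem_cons_self a J)).2
        refine ⟨min ε δ, lt_min hε hδ, fun f hf => ?_⟩
        rcases Finset.mem_cons.1 hf with rfl | hf
        · exact (ball_subset_ball (min_le_right _ _)).trans h2
        · exact (ball_subset_ball (min_le_left _ _)).trans (h1 f hf)
    obtain ⟨ε, hε, h1⟩ := hε
    obtain ⟨x, hx, hxf⟩ := h I ε hε
    refine ⟨fun f => ev x f, hIo fun f hf => h1 f hf ?_, x, hx, rfl⟩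
    rw [mem_ball, dist_eq_norm]
    exact hxf f hf

/-- closed boundaries -/
def Bd (P S : Set X) : Prop :=
  S ⊆ closure P ∧ IsClosed S ∧
    ∀ f : A, ∀ x ∈ P, ∀ ε : ℝ, 0 < ε → ∃ y ∈ S, ‖ev x f‖ < ‖ev y f‖ + ε

/-- Shilov's theorem: there is a smallest closed boundary -/
theorem shilov_thm [CompactSpace X] (hind : IsInducing fun (x : X) (f : A) => ev x f)
    (P : Set X) (hP : P.Nonempty) : ∃ S0, Bd ev P S0 ∧ ∀ S, Bd ev P S → S0 ⊆ S := by
  have hcont : ∀ f : A, Continuous fun x => ev x f := fun f =>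
    (continuous_apply f).comp hind.continuous
  have hcl : Bd ev P (closure P) := ⟨subset_rfl, isClosed_closure, fun f x hx ε hε =>
    ⟨x, subset_closure hx, by linarith⟩⟩
  obtain ⟨S0, -, hmin⟩ := zorn_superset_nonempty {S | Bd ev P S} (fun c hc hchain hne => by
    refine ⟨⋂₀ c, ⟨?_, isClosed_sInter fun S hS => (hc hS).2.1, fun f x hx ε hε => ?_⟩,
      fun S hS => sInter_subset_of_mem hS⟩
    · obtain ⟨S, hS⟩ := hne
      exact (sInter_subset_of_mem hS).trans (hc hS).1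
    · have := hne.to_subtype
      have hT : IsClosed {y | ‖ev x f‖ ≤ ‖ev y f‖ + ε / 2} :=
        isClosed_le continuous_const ((hcont f).norm.add continuous_const)
      obtain ⟨y, hy⟩ := IsCompact.nonempty_iInter_of_directed_nonempty_isCompact_isClosed
        (fun S : c => S.1 ∩ {y | ‖ev x f‖ ≤ ‖ev y f‖ + ε / 2}) (fun S T => by
          by_cases hST : S.1 = T.1
          · exact ⟨S, subset_rfl, inter_subset_inter_left _ hST.le⟩
          · rcases hchain S.2 T.2 hST with h | h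
            · exact ⟨S, subset_rfl, inter_subset_inter_left _ h⟩
            · exact ⟨T, inter_subset_inter_left _ h, subset_rfl⟩)
        (fun S => by
          obtain ⟨y, hy, h⟩ := (hc S.2).2.2 f x hx (ε / 2) (by positivity)
          exact ⟨y, hy, h.le⟩)
        (fun S => ((hc S.2).2.1.inter hT).isCompact) fun S => (hc S.2).2.1.inter hT
      rw [mem_iInter] at hy
      obtain ⟨S, hS⟩ := hne
      have h1 : ‖ev x f‖ ≤ ‖ev y f‖ + ε / 2 := (hy ⟨S, hS⟩).2
      exact ⟨y, fun T hT => (hy ⟨T, hT⟩).1, by linarith⟩) (closure P) hcl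
  have h0 : Bd ev P S0 := hmin.prop
  refine ⟨S0, h0, fun S hS x0 hx0 => ?_⟩
  rw [← hS.2.1.closure_eq, clos_iff ev hind]
  intro s η hη
  obtain ⟨δ, hδ, rfl⟩ : ∃ δ : ℝ, 0 < δ ∧ η = 2 * δ := ⟨η / 2, by positivity, by ring⟩
  set U : Set X := {y | ∀ f ∈ s, ‖ev y f - ev x0 f‖ < δ} with hU
  have hUo : IsOpen U := by
    have : U = ⋂ f ∈ s, {y | ‖ev y f - ev x0 f‖ < δ} := by
      ext z; simp [hU]
    rw [this]
    exact isOpen_biInter_finset fun f _ =>
      isOpen_lt ((hcont f).sub continuous_const).norm continuous_const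
  have hx0U : x0 ∈ U := fun f _ => by rw [sub_self, norm_zero]; exact hδ
  have hnot : ¬ Bd ev P (S0 \ U) := fun h => (hmin.le_of_le h sdiff_subset hx0).2 hx0U
  obtain ⟨g, θ, hθ0, hθ1, hg1, ⟨z, hz, hz1⟩, hg2⟩ : ∃ (g : A) (θ : ℝ), 0 ≤ θ ∧ θ < 1 ∧
      (∀ y ∈ closure P, ‖ev y g‖ ≤ 1) ∧ (∃ z ∈ closure P, ‖ev z g‖ = 1) ∧
      ∀ y ∈ S0 \ U, ‖ev y g‖ ≤ θ := by
    rcases (S0 \ U).eq_empty_or_nonempty with he | ⟨y0, hy0⟩
    · obtain ⟨z, hz⟩ := hP
      refine ⟨1, 0, le_rfl, one_pos, fun y _ => by simp, ⟨z, subset_closure hz, by simp⟩,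
        fun y hy => ?_⟩
      rw [he] at hy
      exact hy.elim
    · have h1 : ¬ ∀ f : A, ∀ x ∈ P, ∀ ε : ℝ, 0 < ε → ∃ y ∈ S0 \ U, ‖ev x f‖ < ‖ev y f‖ + ε :=
        fun h => hnot ⟨sdiff_subset.trans h0.1, h0.2.1.sdiff hUo, h⟩
      push Not at h1
      obtain ⟨f, x, hx, ε, hε, h1⟩ := h1
      obtain ⟨z, hz, hmax⟩ := isClosed_closure.isCompact.exists_isMaxOn
        (hP.mono subset_closure) (hcont f).norm.continuousOn
      have h2 : ‖ev x f‖ ≤ ‖ev z f‖ := hmax (subset_closure hx)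
      have h3 : ε ≤ ‖ev z f‖ := by
        have := h1 y0 hy0
        linarith [norm_nonneg (ev y0 f)]
      have h4 : 0 < ‖ev z f‖ := by linarith
      have h5 : ∀ y, ‖ev y (((‖ev z f‖⁻¹ : ℝ) : ℂ) • f)‖ = ‖ev y f‖ / ‖ev z f‖ := by
        intro y
        rw [map_smul, norm_smul, Complex.norm_real, Real.norm_of_nonneg (by positivity),
          inv_mul_eq_div]
      refine ⟨((‖ev z f‖⁻¹ : ℝ) : ℂ) • f, (‖ev z f‖ - ε) / ‖ev z f‖,
        div_nonneg (by linarith) h4.le, by rw [div_lt_one h4]; linarith, fun y hy => ?_,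
        ⟨z, hz, ?_⟩, fun y hy => ?_⟩
      · rw [h5, div_le_one h4]
        exact hmax hy
      · rw [h5, div_self h4.ne']
      · rw [h5]
        refine div_le_div_of_nonneg_right ?_ h4.le
        have := h1 y hy
        linarith
  obtain ⟨K, hK0, hK⟩ : ∃ K : ℝ, 0 < K ∧ ∀ f ∈ s, ∀ y, ‖ev y f - ev x0 f‖ ≤ K := by
    have h1 : ∀ f : A, ∃ K : ℝ, ∀ y, ‖ev y f - ev x0 f‖ ≤ K := by
      intro f
      obtain ⟨K, hK⟩ := isCompact_univ.exists_bound_of_continuousOn
        ((hcont f).sub (continuous_const (y := ev x0 f))).continuousOn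
      exact ⟨K, fun y => hK y (mem_univ y)⟩
    choose K hK using h1
    have h2 : ∀ f, 0 ≤ K f := fun f => (norm_nonneg _).trans (hK f x0)
    refine ⟨∑ f ∈ s, K f + 1, add_pos_of_nonneg_of_pos (Finset.sum_nonneg fun f _ => h2 f) one_pos,
      fun f hf y => ?_⟩
    have := Finset.single_le_sum (f := K) (fun f _ => h2 f) hf
    linarith [hK f y]
  obtain ⟨n, hn⟩ := exists_pow_lt_of_lt_one (div_pos hδ hK0) hθ1
  rw [lt_div_iff₀ hK0] at hn
  have hev : ∀ (f : A) (y : X), ‖ev y (g ^ n * (f - algebraMap ℂ A (ev x0 f)))‖ =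
      ‖ev y g‖ ^ n * ‖ev y f - ev x0 f‖ := by
    intro f y
    rw [map_mul, map_pow, map_sub, AlgHom.commutes, norm_mul, norm_pow]
    rfl
  have h1 : ∀ f ∈ s, ∀ y ∈ S0, ‖ev y g‖ ^ n * ‖ev y f - ev x0 f‖ ≤ δ := by
    intro f hf y hy
    by_cases hyU : y ∈ U
    · exact (mul_le_of_le_one_left (norm_nonneg _)
        (pow_le_one₀ (norm_nonneg _) (hg1 y (h0.1 hy)))).trans (hyU f hf).le
    · exact (mul_le_mul (pow_le_pow_left₀ (norm_nonneg _) (hg2 y ⟨hy, hyU⟩) n) (hK f hf y)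
        (norm_nonneg _) (by positivity)).trans hn.le
  have h2 : ∀ f ∈ s, ∀ y ∈ closure P, ‖ev y g‖ ^ n * ‖ev y f - ev x0 f‖ ≤ δ := by
    intro f hf
    refine closure_minimal (t := {y | ‖ev y g‖ ^ n * ‖ev y f - ev x0 f‖ ≤ δ}) (fun x hx => ?_)
      (isClosed_le (((hcont g).norm.pow n).mul ((hcont f).sub continuous_const).norm)
        continuous_const)
    change ‖ev x g‖ ^ n * ‖ev x f - ev x0 f‖ ≤ δ
    refine le_of_forall_pos_lt_add fun ε hε => ?_
    obtain ⟨y, hy, h⟩ := h0.2.2 (g ^ n * (f - algebraMap ℂ A (ev x0 f))) x hx ε hε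
    rw [hev, hev] at h
    linarith [h1 f hf y hy]
  obtain ⟨x, hx1, hx⟩ := _root_.mem_closure_iff.1 hz {y | 3 / 4 < ‖ev y g‖ ^ n}
    (isOpen_lt continuous_const ((hcont g).norm.pow n)) (by
      change 3 / 4 < ‖ev z g‖ ^ n
      rw [hz1, one_pow]; norm_num)
  obtain ⟨y, hy, h3⟩ := hS.2.2 (g ^ n) x hx (1 / 4) (by norm_num)
  rw [map_pow, map_pow, norm_pow, norm_pow] at h3
  have h4 : 3 / 4 < ‖ev x g‖ ^ n := hx1
  refine ⟨y, hy, fun f hf => ?_⟩
  have h5 := h2 f hf y (hS.1 hy)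
  by_contra hcon
  rw [not_lt] at hcon
  have h6 : 1 / 2 * (2 * δ) < ‖ev y g‖ ^ n * ‖ev y f - ev x0 f‖ :=
    mul_lt_mul (by linarith) hcon (by positivity) (by positivity)
  linarith

end Pool.Agent.H302Z.GP
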