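import Pool.Agent.H302Z.GP.Hoff
import Pool.Agent.Helper503.Gp.Lib
import Pool.Agent.Helper503.Gp.Harn

set_option autoImplicit false

open Metric Set Filter Topology Complex
open scoped ComplexConjugate

namespace Pool.Agent.H302Z.GP

open Pool.Agent.Helper503.Gp

theorem gl_of_rho {φ ψ : (ℂ → ℂ) → ℂ} (hφ : IsChar φ) (hψ : IsChar ψ) {r : ℝ} (h0 : 0 ≤ r)
    (h1 : r < 1) (hr : ∀ g ∈ HI, (∀ z ∈ Metric.ball (0:ℂ) 1, ‖g z‖ ≤ 1) → φ g = 0 → ‖ψ g‖ ≤ r) :
    Gl φ ψ := by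
  refine ⟨2 * r, by linarith, fun f hf hf1 => ?_⟩
  have key : ∀ t : ℝ, 0 < t → t < 1 → t * ‖φ f - ψ f‖ ≤ 2 * r := by
    intro t ht0 ht1
    have htf : (t : ℂ) • f ∈ HI := char_le_smul _ hf
    have htf1 : ∀ z ∈ Metric.ball (0:ℂ) 1, ‖((t : ℂ) • f) z‖ ≤ 1 := by
      intro z hz
      rw [Pi.smul_apply, norm_smul, Complex.norm_real, Real.norm_of_nonneg ht0.le]
      have := hf1 z hz
      nlinarith [norm_nonneg (f z)]
    have hφf := char_le hφ hf hf1
    have hψf := char_le hψ hf hf1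
    have hb : ‖φ ((t : ℂ) • f)‖ < 1 := by
      rw [hφ.2.2.1 _ _ hf, norm_mul, Complex.norm_real, Real.norm_of_nonneg ht0.le]
      nlinarith [norm_nonneg (φ f)]
    obtain ⟨m, hm, hm1, hmm⟩ := x28452_mob hb htf htf1
    have e1 := hmm φ hφ
    rw [sub_self] at e1
    have e2 := hmm ψ hψ
    have hne := x28452_ne hb hb.le
    have e3 : φ m = 0 := (mul_eq_zero.1 e1).resolve_right hne
    have e4 := hr m hm hm1 e3
    have e5 : ‖ψ ((t : ℂ) • f) - φ ((t : ℂ) • f)‖ ≤ r * 2 := by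
      rw [← e2, norm_mul]
      have e6 : ‖1 - conj (φ ((t : ℂ) • f)) * ψ ((t : ℂ) • f)‖ ≤ 2 := by
        have e7 := char_le hψ htf htf1
        calc ‖1 - conj (φ ((t : ℂ) • f)) * ψ ((t : ℂ) • f)‖
            ≤ ‖(1 : ℂ)‖ + ‖conj (φ ((t : ℂ) • f)) * ψ ((t : ℂ) • f)‖ := norm_sub_le _ _
          _ ≤ 1 + 1 := by
              rw [norm_one, norm_mul, RCLike.norm_conj]
              have : ‖φ ((t : ℂ) • f)‖ * ‖ψ ((t : ℂ) • f)‖ ≤ 1 * 1 :=
                mul_le_mul hb.le e7 (norm_nonneg _) zero_le_one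
              linarith
          _ = 2 := by norm_num
      exact mul_le_mul e4 e6 (norm_nonneg _) h0
    rw [hφ.2.2.1 _ _ hf, hψ.2.2.1 _ _ hf, ← mul_sub, norm_mul, Complex.norm_real,
      Real.norm_of_nonneg ht0.le, norm_sub_rev] at e5
    linarith
  by_contra hcon
  rw [not_le] at hcon
  have hpos : 0 < ‖φ f - ψ f‖ := lt_of_le_of_lt (by positivity) hcon
  obtain ⟨t, ht1, ht2⟩ := exists_between (show 2 * r / ‖φ f - ψ f‖ < 1 by
    rw [div_lt_one hpos]; exact hcon)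
  have ht0 : 0 < t := lt_of_le_of_lt (by positivity) ht1
  have := key t ht0 ht2
  rw [div_lt_iff₀ hpos] at ht1
  linarith

theorem gl_refl (φ : (ℂ → ℂ) → ℂ) : Gl φ φ :=
  ⟨0, by norm_num, fun f _ _ => by rw [sub_self, norm_zero]⟩

theorem lam_gl (p : Ultrafilter ℕ) {e e' : ℂ} (he : e ∈ UH) (he' : e' ∈ UH) :
    Gl (lam p e) (lam p e') := by
  have hr1 : ‖bfac (cay e) (cay e')‖ < 1 := by
    have h1 := one_sub_bfac_cay (a := e) (b := e') he he'
    have h2 := PH_pos (a := e) (b := e') he he'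
    by_contra hcon
    rw [not_lt] at hcon
    nlinarith
  refine gl_of_rho (lam_char p he) (lam_char p he') (norm_nonneg _) hr1 fun g hg hg1 h0 => ?_
  have hG := lam_hu p hg hg1
  obtain ⟨g₁, -, h2, h3⟩ := Pool.Agent.Helper503.Dg.divide hG.mem.1 hG.le (cay_mem he) (by
    change lam p (icay (cay e)) g = 0
    rw [icay_cay he, h0])
  have h4 := h3 (cay e') (cay_mem he')
  change lam p (icay (cay e')) g = _ at h4
  rw [icay_cay he'] at h4
  rw [h4, norm_mul]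
  exact mul_le_of_le_one_right (norm_nonneg _) (h2 _ (cay_mem he'))

/-- `φ` is in the weak-star closure of `S` -/
def Incl (φ : (ℂ → ℂ) → ℂ) (S : Set ((ℂ → ℂ) → ℂ)) : Prop :=
  ∀ s : Finset (ℂ → ℂ), ∀ ε : ℝ, 0 < ε → ∃ ψ ∈ S, ∀ f ∈ s, ‖ψ f - φ f‖ < ε

/-- the analytic disc of `p` -/
def Disc (p : Ultrafilter ℕ) : Set ((ℂ → ℂ) → ℂ) := {ψ | ∃ e ∈ UH, ψ = lam p e}

/-- `q` is in the orbit closure of `p` under the shift -/
def Reach (p q : Ultrafilter ℕ) : Prop := ∀ B ∈ q, ∃ k : ℕ, {n | n + k ∈ B} ∈ p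

theorem reach_incl {p q : Ultrafilter ℕ} (h : Reach p q) {e : ℂ} (he : e ∈ UH) :
    Incl (lam q e) (Disc p) := by
  intro s ε hε
  have hB : {n | ∀ f ∈ s, f ∈ HI → ‖f (cay (e / 4 ^ n)) - lam q e f‖ ≤ ε / 2} ∈ q := by
    change ∀ᶠ n in (q : Filter ℕ), ∀ f ∈ s, f ∈ HI → ‖f (cay (e / 4 ^ n)) - lam q e f‖ ≤ ε / 2
    rw [Filter.eventually_all_finset]
    intro f _
    by_cases hf : f ∈ HI
    · filter_upwards [(Metric.tendsto_nhds.1 (lam_spec q he hf)) (ε / 2) (by positivity)]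
        with n hn _
      rw [dist_eq_norm] at hn
      exact hn.le
    · exact Eventually.of_forall fun n h => absurd h hf
  obtain ⟨k, hk⟩ := h _ hB
  refine ⟨lam p (e / 4 ^ k), ⟨_, div_mem he k, rfl⟩, fun f hf => ?_⟩
  by_cases hfH : f ∈ HI
  · have h1 := ((lam_spec p (div_mem he k) hfH).sub_const (lam q e f)).norm
    refine lt_of_le_of_lt (le_of_tendsto h1 ?_) (half_lt_self hε)
    filter_upwards [hk] with n hn
    have e1 : e / 4 ^ k / 4 ^ n = e / 4 ^ (n + k) := by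
      rw [div_div, pow_add, mul_comm]
    rw [e1]
    exact hn f hf hfH
  · rw [(lam_char p (div_mem he k)).2.2.2 f hfH, (lam_char q he).2.2.2 f hfH, sub_self, norm_zero]
    exact hε

theorem Reach.trans {p q u : Ultrafilter ℕ} (h1 : Reach p q) (h2 : Reach q u) : Reach p u := by
  intro B hB
  obtain ⟨k, hk⟩ := h2 B hB
  obtain ⟨l, hl⟩ := h1 _ hk
  refine ⟨l + k, Filter.mem_of_superset hl fun n hn => ?_⟩
  change n + (l + k) ∈ B
  rw [← add_assoc]
  exact hn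

/-- the filter of sets containing the orbit -/
def orb (p : Ultrafilter ℕ) : Filter ℕ := ⨆ k : ℕ, Filter.map (fun n => n + k) p

theorem mem_orb {p : Ultrafilter ℕ} {B : Set ℕ} : B ∈ orb p ↔ ∀ k : ℕ, {n | n + k ∈ B} ∈ p := by
  rw [orb, Filter.mem_iSup]
  rfl

theorem reach_iff {p q : Ultrafilter ℕ} : Reach p q ↔ (q : Filter ℕ) ≤ orb p := by
  constructor
  · intro h B hB
    rw [mem_orb] at hB
    by_contra hcon
    obtain ⟨k, hk⟩ := h Bᶜ (Ultrafilter.compl_mem_iff_notMem.2 hcon)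
    exact (Ultrafilter.compl_mem_iff_notMem.1 hk) (hB k)
  · intro h B hB
    by_contra hcon
    push Not at hcon
    have h1 : Bᶜ ∈ orb p := mem_orb.2 fun k => Ultrafilter.compl_mem_iff_notMem.2 (hcon k)
    exact (Ultrafilter.compl_mem_iff_notMem.1 (h h1)) hB

theorem orb_le {p q : Ultrafilter ℕ} (h : Reach p q) : orb q ≤ orb p := by
  intro B hB
  rw [mem_orb] at hB ⊢
  intro k
  refine reach_iff.1 h (mem_orb.2 fun l => Filter.mem_of_superset (hB (l + k)) fun n hn => ?_)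
  change n + l + k ∈ B
  rw [add_assoc]
  exact hn

theorem orb_neBot (p : Ultrafilter ℕ) : NeBot (orb p) :=
  neBot_of_le (f := Filter.map (fun n => n + 0) p) (le_iSup (fun k : ℕ =>
    Filter.map (fun n => n + k) (p : Filter ℕ)) 0)

theorem exists_min : ∃ p : Ultrafilter ℕ, ∀ q, Reach p q → Reach q p := by
  refine exists_maximal_of_chains_bounded (r := Reach) (fun c hc => ?_) Reach.trans
  have h1 : NeBot (⨅ a : c, orb a.1) := by
    refine iInf_neBot_of_directed (fun a b => ?_) fun a => orb_neBot _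
    by_cases hab : a.1 = b.1
    · exact ⟨a, le_rfl, (congrArg orb hab).le⟩
    · rcases hc a.2 b.2 hab with h | h
      · exact ⟨b, orb_le h, le_rfl⟩
      · exact ⟨a, le_rfl, orb_le h⟩
  refine ⟨Ultrafilter.of (⨅ a : c, orb a.1), fun a ha => reach_iff.2 ?_⟩
  exact (Ultrafilter.of_le _).trans (iInf_le (fun a : c => orb a.1) ⟨a, ha⟩)

/-- the numbers `(4 ^ j - 1) / 3` -/
def tt : ℕ → ℕ
  | 0 => 0
  | j + 1 => 4 * tt j + 1

theorem tt_eq (j : ℕ) : 3 * tt j + 1 = 4 ^ j := by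
  induction j with
  | zero => rfl
  | succ j ih => rw [tt, pow_succ, ← ih]; ring

theorem le_tt (j : ℕ) : j ≤ tt j := by
  induction j with
  | zero => exact le_rfl
  | succ j ih => rw [tt]; omega

theorem exists_pair : ∃ p q : Ultrafilter ℕ, Reach p q ∧ Reach q p ∧ (q : Filter ℕ) ≤ atTop ∧
    ¬ Gl (lam p I) (lam q I) := by
  obtain ⟨p, hp⟩ := exists_min
  set q : Ultrafilter ℕ := (hyperfilter ℕ).bind fun j => p.map fun n => n + tt j with hq
  have hmem : ∀ B : Set ℕ, B ∈ q ↔ {j | {n | n + tt j ∈ B} ∈ p} ∈ hyperfilter ℕ := fun B =>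
    Filter.mem_bind'
  have hpq : Reach p q := by
    intro B hB
    obtain ⟨j, hj⟩ := Ultrafilter.nonempty_of_mem ((hmem B).1 hB)
    exact ⟨tt j, hj⟩
  refine ⟨p, q, hpq, hp q hpq, ?_, not_gl fun M => ?_⟩
  · refine (atTop_basis.ge_iff).2 fun N _ => (hmem _).2 ?_
    refine Nat.hyperfilter_le_atTop (Filter.mem_of_superset (Filter.mem_atTop N) fun j hj => ?_)
    refine Filter.univ_mem' fun n => ?_
    have h1 : N ≤ j := hj
    have h2 := le_tt j
    change N ≤ n + tt j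
    omega
  · obtain ⟨a, ha⟩ := exists_class p (K := 4 ^ (M + 1)) (by positivity)
    have hk := tt_eq (M + 1)
    have hk2 := le_tt (M + 1)
    have hk3 : tt (M + 1) = 4 * tt M + 1 := rfl
    have hk4 := le_tt M
    refine ⟨_, ha, {m | ((4 ^ (M + 1) : ℕ) : ℤ) ∣ 3 * ((m : ℤ) - a) + 1}, (hmem _).2 ?_,
      sparse_class (by omega) a, fun m hm n hn => ?_⟩
    · refine Nat.hyperfilter_le_atTop
        (Filter.mem_of_superset (Filter.mem_atTop (M + 1)) fun j hj => ?_)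
      refine Filter.mem_of_superset ha fun n hn => ?_
      have h1 : ((4 ^ (M + 1) : ℕ) : ℤ) ∣ (n : ℤ) - a := (show n ≡ a [MOD _] from hn).symm.dvd
      have h2 : ((4 ^ (M + 1) : ℕ) : ℤ) ∣ ((4 ^ j : ℕ) : ℤ) :=
        Int.natCast_dvd_natCast.2 (pow_dvd_pow 4 hj)
      change ((4 ^ (M + 1) : ℕ) : ℤ) ∣ 3 * (((n + tt j : ℕ) : ℤ) - a) + 1
      have e : 3 * (((n + tt j : ℕ) : ℤ) - a) + 1 = 3 * ((n : ℤ) - a) + ((4 ^ j : ℕ) : ℤ) := by
        rw [← tt_eq j]; push_cast; ring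
      rw [e]
      exact (h1.mul_left 3).add h2
    · have h1 : ((4 ^ (M + 1) : ℕ) : ℤ) ∣ (n : ℤ) - a := (show n ≡ a [MOD _] from hn).symm.dvd
      have h2 : ((4 ^ (M + 1) : ℕ) : ℤ) ∣ 3 * ((m : ℤ) - a) + 1 := hm
      have h3 : ((4 ^ (M + 1) : ℕ) : ℤ) ∣ |3 * ((m : ℤ) - n) + 1| := by
        rw [dvd_abs]
        have e : 3 * ((m : ℤ) - n) + 1 = (3 * ((m : ℤ) - a) + 1) - 3 * ((n : ℤ) - a) := by ring
        rw [e]
        exact h2.sub (h1.mul_left 3)
      have h4 : 0 < |3 * ((m : ℤ) - n) + 1| := abs_pos.2 (by omega)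
      have h5 := Int.le_of_dvd h4 h3
      rw [← hk] at h5
      push_cast at h5
      have h6 : ((M + 1 : ℕ) : ℤ) ≤ tt (M + 1) := by exact_mod_cast hk2
      push_cast at h6
      have h7 : (tt (M + 1) : ℤ) = 4 * tt M + 1 := by exact_mod_cast hk3
      have h8 : (M : ℤ) ≤ tt M := by exact_mod_cast hk4
      rcases abs_cases (3 * ((m : ℤ) - n) + 1) with h9 | h9 <;>
        rcases abs_cases ((n : ℤ) - m) with h10 | h10 <;> omega

end Pool.Agent.H302Z.GP
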